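import Pool.Agent.KS6_93.CG.Ver
import Pool.Agent.KS6_3.B2.Main

/-!
# The number of centralizers of given index
-/

set_option autoImplicit false

namespace Pool.Agent.KS6_93.CG

open Finset Module

/-- The centralizers `C(g)`, `g ∈ G_T(κ)`, of the index `q ^ r`. -/
def Cent {α β γ : Type} [Fintype α] [Fintype β] (T : α → β → γ → ℤ) (r : ℕ)
    (κ : Type) [Field κ] : Type :=
  {H : Subgroup (Grp T κ) // (∃ g : Grp T κ, H = Subgroup.centralizer {g}) ∧
    H.index = Nat.card κ ^ r}

section

variable {α β γ : Type} [Fintype α] [Fintype β] [Fintype γ] [DecidableEq β]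

/-- The tensor with the additional block `(u, w) ↦ u ⊗ w`. -/
def big (T : α → β → γ → ℤ) : α ⊕ β → β → γ ⊕ (β × β) → ℤ
  | Sum.inl a, j, Sum.inl k => T a j k
  | Sum.inr b, j, Sum.inr (b', j') => if b = b' then (if j = j' then 1 else 0) else 0
  | Sum.inl _, _, Sum.inr _ => 0
  | Sum.inr _, _, Sum.inl _ => 0

variable (T : α → β → γ → ℤ) {κ : Type} [Field κ]

omit [Fintype γ] in
lemma big_inl (v : α ⊕ β → κ) (w : β → κ) (k : γ) :
    bil (big T) v w (Sum.inl k) = bil T (fun a => v (Sum.inl a)) w k := by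
  unfold bil
  simp only [Fintype.sum_sum_type, big, Int.cast_zero, zero_mul, sum_const_zero, add_zero]

omit [Fintype γ] in
lemma big_inr (v : α ⊕ β → κ) (w : β → κ) (b j : β) :
    bil (big T) v w (Sum.inr (b, j)) = v (Sum.inr b) * w j := by
  unfold bil
  simp only [Fintype.sum_sum_type, big, Int.cast_zero, zero_mul, sum_const_zero, zero_add]
  push_cast
  simp only [ite_mul, zero_mul, one_mul]
  rw [Finset.sum_comm]
  simp

variable [Finite κ]

lemma range_large₁ {v : α ⊕ β → κ} {w : β → κ} (hw : w ≠ 0) :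
    Nat.card κ ^ Fintype.card β ≤ Nat.card (LinearMap.range (Lm (big T) v w)) := by
  obtain ⟨j, hj⟩ := Function.ne_iff.mp hw
  have h1 : Nat.card (β → κ) = Nat.card κ ^ Fintype.card β := by
    rw [Nat.card_fun, Nat.card_eq_fintype_card (α := β)]
  rw [← h1]
  let f : (β → κ) → LinearMap.range (Lm (big T) v w) := fun u =>
    ⟨Lm (big T) v w (Sum.elim 0 u, 0), LinearMap.mem_range_self _ _⟩
  refine Nat.card_le_card_of_injective f fun u u' h => ?_
  funext b
  have h2 := congrFun (congrArg Subtype.val h) (Sum.inr (b, j))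
  change Lm (big T) v w (Sum.elim 0 u, 0) (Sum.inr (b, j)) =
    Lm (big T) v w (Sum.elim 0 u', 0) (Sum.inr (b, j)) at h2
  rw [Lm_apply, Lm_apply, bil_zero_right, sub_zero, sub_zero, big_inr, big_inr] at h2
  exact mul_right_cancel₀ hj h2

lemma range_large₂ {v : α ⊕ β → κ} {b : β} (hv : v (Sum.inr b) ≠ 0) :
    Nat.card κ ^ Fintype.card β ≤ Nat.card (LinearMap.range (Lm (big T) v (0 : β → κ))) := by
  have h1 : Nat.card (β → κ) = Nat.card κ ^ Fintype.card β := by
    rw [Nat.card_fun, Nat.card_eq_fintype_card (α := β)]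
  rw [← h1]
  let f : (β → κ) → LinearMap.range (Lm (big T) v (0 : β → κ)) := fun w' =>
    ⟨Lm (big T) v 0 (0, w'), LinearMap.mem_range_self _ _⟩
  refine Nat.card_le_card_of_injective f fun u u' h => ?_
  funext j
  have h2 := congrFun (congrArg Subtype.val h) (Sum.inr (b, j))
  change Lm (big T) v 0 (0, u) (Sum.inr (b, j)) = Lm (big T) v 0 (0, u') (Sum.inr (b, j)) at h2
  rw [Lm_apply, Lm_apply, bil_zero_right, zero_sub, zero_sub, Pi.neg_apply, Pi.neg_apply,
    big_inr, big_inr] at h2
  exact mul_left_cancel₀ hv (neg_injective h2)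

omit [Fintype γ] [DecidableEq β] [Finite κ] in
/-- rank and nullity -/
lemma card_range_Am (x : α → κ) :
    Nat.card (LinearMap.range (Am T x)) * Nat.card κ ^ finrank κ (Ker T x) =
      Nat.card κ ^ Fintype.card β := by
  have h1 := (Am T x).finrank_range_add_finrank_ker
  rw [finrank_fintype_fun_eq_card] at h1
  rw [Module.natCard_eq_pow_finrank (K := κ) (V := LinearMap.range (Am T x)), ← pow_add, h1]

omit [Fintype γ] [Finite κ] in
lemma big_pure (x : α → κ) (w : β → κ) :
    bil (big T) (Sum.elim x 0) w = Sum.elim (bil T x w) 0 := by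
  funext k
  rcases k with k | ⟨b, j⟩
  · rw [big_inl]
    rfl
  · rw [big_inr]
    simp

omit [Fintype γ] [Finite κ] in
lemma card_range_pure (x : α → κ) :
    Nat.card (LinearMap.range (Lm (big T) (Sum.elim x 0) (0 : β → κ))) =
      Nat.card (LinearMap.range (Am T x)) := by
  refine Nat.card_congr
    { toFun := fun y => ⟨fun k => y.1 (Sum.inl k), ?_⟩
      invFun := fun y => ⟨Sum.elim y.1 0, ?_⟩
      left_inv := fun y => ?_
      right_inv := fun y => rfl }
  · obtain ⟨⟨v', w'⟩, h⟩ := y.2
    refine ⟨-w', ?_⟩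
    rw [← h, Lm_apply, bil_zero_right, big_pure, Am_apply, bil_neg_right, zero_sub]
    rfl
  · obtain ⟨w', h⟩ := y.2
    refine ⟨(0, -w'), ?_⟩
    rw [Lm_apply, bil_zero_right, big_pure, ← h, Am_apply, bil_neg_right, zero_sub]
    funext k
    rcases k with k | k
    · exact neg_neg _
    · exact neg_zero
  · obtain ⟨y, hy⟩ := y
    obtain ⟨⟨v', w'⟩, h⟩ := hy
    refine Subtype.ext ?_
    funext k
    rcases k with k | k
    · rfl
    · change (0 : κ) = y (Sum.inr k)
      rw [← h, Lm_apply, bil_zero_right, big_pure, zero_sub]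
      exact neg_zero.symm

/-- The subgroup of the elements with `w ∈ K`. -/
def HK (T : α → β → γ → ℤ) (K : Submodule κ (β → κ)) : Subgroup (Grp T κ) where
  carrier := {h | h.w ∈ K}
  mul_mem' ha hb := K.add_mem ha hb
  one_mem' := K.zero_mem
  inv_mem' ha := K.neg_mem ha

omit [DecidableEq β] [Fintype γ] [Finite κ] in
lemma HK_inj {K K' : Submodule κ (β → κ)} (h : HK T K = HK T K') : K = K' := by
  ext w
  have h1 : (⟨0, w, 0⟩ : Grp T κ) ∈ HK T K ↔ (⟨0, w, 0⟩ : Grp T κ) ∈ HK T K' := by rw [h]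
  exact h1

omit [Fintype γ] [Finite κ] in
lemma cent_pure (x : α → κ) (z : γ ⊕ (β × β) → κ) :
    Subgroup.centralizer {(⟨Sum.elim x 0, 0, z⟩ : Grp (big T) κ)} = HK (big T) (Ker T x) := by
  ext h
  rw [mem_centralizer]
  change _ ↔ h.w ∈ Ker T x
  rw [LinearMap.mem_ker, Am_apply]
  change bil (big T) h.v 0 - bil (big T) (Sum.elim x 0) h.w = 0 ↔ _
  rw [bil_zero_right, big_pure, zero_sub, neg_eq_zero]
  constructor
  · intro h1
    funext k
    exact congrFun h1 (Sum.inl k)
  · intro h1
    rw [h1]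
    funext k
    rcases k with k | k <;> rfl

/-- **The centralizers of the index `q ^ (b - 1)` are the kernels of dimension one.** -/
theorem card_cent (hβ : 1 ≤ Fintype.card β) :
    Nat.card (Cent (big T) (Fintype.card β - 1) κ) =
      Nat.card {K : Submodule κ (β → κ) // ∃ x : α → κ, Ker T x = K ∧ finrank κ K = 1} := by
  have hq : 1 < Nat.card κ := Finite.one_lt_card
  have hlt : Nat.card κ ^ (Fintype.card β - 1) < Nat.card κ ^ Fintype.card β :=
    Nat.pow_lt_pow_right hq (by omega)
  have hrk : ∀ x : α → κ, Nat.card (LinearMap.range (Am T x)) =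
      Nat.card κ ^ (Fintype.card β - 1) ↔ finrank κ (Ker T x) = 1 := by
    intro x
    have h1 := card_range_Am T x
    have h2 : Nat.card κ ^ Fintype.card β = Nat.card κ ^ (Fintype.card β - 1) * Nat.card κ := by
      rw [← pow_succ, Nat.sub_add_cancel hβ]
    constructor
    · intro h
      rw [h, h2] at h1
      have h3 := Nat.eq_of_mul_eq_mul_left (pow_pos (by omega) _) h1
      exact Nat.pow_right_injective hq (by simpa using h3)
    · intro h
      rw [h, pow_one, h2] at h1
      exact Nat.eq_of_mul_eq_mul_right (by omega) h1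
  symm
  let f : {K : Submodule κ (β → κ) // ∃ x : α → κ, Ker T x = K ∧ finrank κ K = 1} →
      Cent (big T) (Fintype.card β - 1) κ := fun K => ⟨HK (big T) K.1, by
    obtain ⟨K, x, rfl, h⟩ := K
    refine ⟨⟨⟨Sum.elim x 0, 0, 0⟩, (cent_pure T x 0).symm⟩, ?_⟩
    rw [← cent_pure T x 0, index_centralizer]
    change Nat.card (LinearMap.range (Lm (big T) (Sum.elim x 0) (0 : β → κ))) = _
    rw [card_range_pure, hrk]
    exact h⟩
  refine Nat.card_congr (Equiv.ofBijective f ⟨fun K K' h => ?_, fun H => ?_⟩)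
  · exact Subtype.ext (HK_inj (big T) (congrArg Subtype.val h))
  · obtain ⟨H, ⟨g, rfl⟩, h⟩ := H
    obtain ⟨v, w, z⟩ := g
    rw [index_centralizer] at h
    change Nat.card (LinearMap.range (Lm (big T) v w)) = _ at h
    have hw : w = 0 := by
      by_contra hw
      have h1 := range_large₁ T (v := v) hw
      omega
    subst hw
    have hv : v = Sum.elim (fun a => v (Sum.inl a)) 0 := by
      funext a
      rcases a with a | b
      · rfl
      · by_contra hb
        have h1 := range_large₂ T (v := v) (b := b) hb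
        omega
    rw [hv, card_range_pure, hrk] at h
    refine ⟨⟨Ker T fun a => v (Sum.inl a), _, rfl, h⟩, Subtype.ext ?_⟩
    change HK (big T) (Ker T fun a => v (Sum.inl a)) = Subgroup.centralizer {⟨v, 0, z⟩}
    rw [← cent_pure T _ z, ← hv]

end

section Points

open Pool.Agent.KS6_3.B2 LinearAlgebra MvPolynomial

variable {m d : ℕ} {ι : Type} [Fintype ι] {Φ : ι → (Fin d → Fin m) → ℤ} {e : Fin m → Bool}
  {κ : Type} [Field κ]

omit [Fintype ι] in
lemma ker_smul {α β γ : Type} [Fintype α] [Fintype β] (T : α → β → γ → ℤ) {c : κ} (hc : c ≠ 0)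
    (x : α → κ) : Ker T (c • x) = Ker T x := by
  ext w
  rw [LinearMap.mem_ker, LinearMap.mem_ker, Am_apply, Am_apply, bil_smul_left, smul_eq_zero]
  exact or_iff_right hc

omit [Fintype ι] in
lemma formVal_smul (c : κ) (x : Fin m → κ) (φ : ι) :
    formVal (Φ φ) (c • x) = c ^ d * formVal (Φ φ) x := by
  unfold formVal
  rw [mul_sum]
  refine sum_congr rfl fun s _ => ?_
  simp only [Pi.smul_apply, smul_eq_mul, prod_mul_distrib, prod_const, card_univ,
    Fintype.card_fin]
  ring

omit [Fintype ι] in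
lemma good_smul {c : κ} (hc : c ≠ 0) (x : Fin m → κ) : Good Φ e (c • x) ↔ Good Φ e x := by
  unfold Good
  simp only [formVal_smul, Pi.smul_apply, smul_eq_mul, mul_eq_zero, pow_eq_zero_iff', hc,
    false_or, false_and, ne_eq]

omit [Fintype ι] in
/-- **The kernels of dimension one and the points of the projective space.** -/
theorem card_lines (hd : 1 ≤ d) :
    Nat.card {K : Submodule κ (Col m d → κ) // ∃ x : Fin m → κ, Ker (ten Φ e) x = K ∧
      finrank κ K = 1} = Nat.card {P : Projectivization κ (Fin m → κ) // Good Φ e P.rep} := by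
  symm
  let f : {P : Projectivization κ (Fin m → κ) // Good Φ e P.rep} →
      {K : Submodule κ (Col m d → κ) // ∃ x : Fin m → κ, Ker (ten Φ e) x = K ∧ finrank κ K = 1} :=
    fun P => ⟨Ker (ten Φ e) P.1.rep, P.1.rep, rfl, (good_iff hd _).mpr P.2⟩
  refine Nat.card_congr (Equiv.ofBijective f ⟨fun P P' h => ?_, fun K => ?_⟩)
  · have h1 : Ker (ten Φ e) P.1.rep = Ker (ten Φ e) P'.1.rep := congrArg Subtype.val h
    rw [ker_good P.2, ker_good P'.2] at h1
    have h2 : (ver P'.1.rep : Col m d → κ) ∈ Submodule.span κ {ver P.1.rep} := by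
      rw [h1]
      exact Submodule.mem_span_singleton_self _
    obtain ⟨c, hc⟩ := Submodule.mem_span_singleton.mp h2
    obtain ⟨μ, hμ⟩ := ver_inj hd (Projectivization.rep_nonzero P.1) hc.symm
    refine Subtype.ext ?_
    rw [← Projectivization.mk_rep P.1, ← Projectivization.mk_rep P'.1,
      Projectivization.mk_eq_mk_iff']
    have hμ0 : μ ≠ 0 := by
      rintro rfl
      rw [zero_smul] at hμ
      exact Projectivization.rep_nonzero P'.1 hμ
    exact ⟨μ⁻¹, by rw [hμ, smul_smul, inv_mul_cancel₀ hμ0, one_smul]⟩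
  · obtain ⟨K, x, rfl, h⟩ := K
    rw [good_iff hd] at h
    have hx : x ≠ 0 := by
      rintro rfl
      obtain ⟨⟨i, -, hi⟩, -⟩ := h
      exact hi rfl
    obtain ⟨c, hc⟩ := Projectivization.exists_smul_eq_mk_rep κ x hx
    have hc' : (c : κ) • x = (Projectivization.mk κ x hx).rep := hc
    refine ⟨⟨Projectivization.mk κ x hx, ?_⟩, Subtype.ext ?_⟩
    · rw [← hc', good_smul c.ne_zero]
      exact h
    · change Ker (ten Φ e) (Projectivization.mk κ x hx).rep = _
      rw [← hc', ker_smul _ c.ne_zero]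

end Points

end Pool.Agent.KS6_93.CG
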