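import Pool.Agent.KS6_93.CG.Pts

/-!
# The conjugacy classes of given size in a coset
-/

set_option autoImplicit false

namespace Pool.Agent.KS6_93.CG

open Finset Module MvPolynomial Pool.Agent.KS6_3.B2

/-- The conjugacy classes of `G_T(κ)` with `q ^ r` elements that are contained in the coset
`v_0 = 1`, `w = 0` of the abelian normal subgroup `v_0 = 0`, `w = 0`. -/
def Cls {N : ℕ} {β γ : Type} [Fintype β] (T : Fin (N + 1) → β → γ → ℤ) (r : ℕ)
    (κ : Type) [Field κ] : Type :=
  {c : ConjClasses (Grp T κ) // (∀ g ∈ c.carrier, g.v 0 = 1 ∧ g.w = 0) ∧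
    Nat.card c.carrier = Nat.card κ ^ r}

instance {α β γ : Type} [Fintype α] [Fintype β] [Finite γ] (T : α → β → γ → ℤ)
    (κ : Type) [Field κ] [Finite κ] : Finite (Grp T κ) :=
  Finite.of_injective (fun g : Grp T κ => (g.v, g.w, g.z)) fun g h e => by
    simp only [Prod.mk.injEq] at e
    exact Grp.ext e.1 e.2.1 e.2.2

section Count

variable {N : ℕ} {β γ : Type} [Fintype β] [Fintype γ] (T : Fin (N + 1) → β → γ → ℤ) (r : ℕ)
  (κ : Type) [Field κ] [Finite κ]

omit [Fintype γ] [Finite κ] in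
lemma card_range_Lm (v : Fin (N + 1) → κ) :
    Nat.card (LinearMap.range (Lm T v (0 : β → κ))) = Nat.card (LinearMap.range (Am T v)) := by
  refine Nat.card_congr (Equiv.subtypeEquivRight fun y => ?_)
  constructor
  · rintro ⟨⟨v', w'⟩, h⟩
    refine ⟨-w', ?_⟩
    rw [← h, Lm_apply, bil_zero_right, Am_apply, bil_neg_right, zero_sub]
  · rintro ⟨w', h⟩
    refine ⟨(0, -w'), ?_⟩
    rw [← h, Lm_apply, bil_zero_right, Am_apply, bil_neg_right, zero_sub, neg_neg]

/-- the elements of the coset with `q ^ r` conjugates -/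
abbrev Elt : Type :=
  {g : Grp T κ // (g.v 0 = 1 ∧ g.w = 0) ∧
    Nat.card (ConjClasses.mk g).carrier = Nat.card κ ^ r}

omit [Fintype γ] [Finite κ] in
lemma conj_inv {g h : Grp T κ} (hc : ConjClasses.mk g = ConjClasses.mk h) :
    g.v = h.v ∧ g.w = h.w := by
  rw [ConjClasses.mk_eq_mk_iff_isConj] at hc
  obtain ⟨c, hc⟩ := isConj_iff.mp hc
  rw [conj_eq] at hc
  exact ⟨by rw [← hc], by rw [← hc]⟩

/-- elements and classes -/
def eltEquiv : Elt T r κ ≃ Σ c : Cls T r κ, c.1.carrier where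
  toFun g := ⟨⟨ConjClasses.mk g.1, fun h hh => by
    rw [ConjClasses.mem_carrier_iff_mk_eq] at hh
    obtain ⟨h1, h2⟩ := conj_inv T κ hh
    rw [h1, h2]
    exact g.2.1, g.2.2⟩, ⟨g.1, ConjClasses.mem_carrier_mk⟩⟩
  invFun c := ⟨c.2.1, c.1.2.1 _ c.2.2, by
    rw [ConjClasses.mem_carrier_iff_mk_eq.mp c.2.2]
    exact c.1.2.2⟩
  left_inv g := rfl
  right_inv c := by
    obtain ⟨⟨c, hc⟩, ⟨g, hg⟩⟩ := c
    have h := ConjClasses.mem_carrier_iff_mk_eq.mp hg
    subst h
    rfl

/-- elements and parameters -/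
def eltEquiv' : Elt T r κ ≃ {x : Fin N → κ //
    Nat.card (LinearMap.range (Am T (Fin.cons 1 x : Fin (N + 1) → κ))) = Nat.card κ ^ r} ×
      (γ → κ) where
  toFun g := ⟨⟨fun i => g.1.v (Fin.succ i), by
    obtain ⟨⟨v, w, z⟩, ⟨h1, h2⟩, h3⟩ := g
    dsimp only at h1 h2
    subst h2
    rw [card_class] at h3
    dsimp only at h3
    rw [card_range_Lm] at h3
    dsimp only
    have e1 : (Fin.cons 1 (fun i => v (Fin.succ i)) : Fin (N + 1) → κ) = v := by
      funext i
      refine Fin.cases ?_ (fun i => ?_) i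
      · rw [Fin.cons_zero, h1]
      · rw [Fin.cons_succ]
    rw [e1]
    exact h3⟩, g.1.z⟩
  invFun x := ⟨⟨Fin.cons 1 x.1.1, 0, x.2⟩,
    ⟨show (Fin.cons 1 x.1.1 : Fin (N + 1) → κ) 0 = 1 from Fin.cons_zero _ _, rfl⟩, by
    rw [card_class]
    dsimp only
    rw [card_range_Lm]
    exact x.1.2⟩
  left_inv g := by
    obtain ⟨⟨v, w, z⟩, ⟨h1, h2⟩, h3⟩ := g
    dsimp only at h1 h2
    subst h2
    refine Subtype.ext (Grp.ext ?_ rfl rfl)
    funext i
    refine Fin.cases ?_ (fun i => ?_) i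
    · exact h1.symm
    · rfl
  right_inv x := rfl

/-- **The number of the classes.** -/
theorem card_cls : Nat.card (Cls T r κ) * Nat.card κ ^ r = Nat.card {x : Fin N → κ //
    Nat.card (LinearMap.range (Am T (Fin.cons 1 x : Fin (N + 1) → κ))) = Nat.card κ ^ r} *
      Nat.card κ ^ Fintype.card γ := by
  classical
  have : Finite (ConjClasses (Grp T κ)) := Quotient.finite _
  have : Finite (Cls T r κ) := Subtype.finite
  have : Fintype (Cls T r κ) := Fintype.ofFinite _
  have h1 := Nat.card_congr (eltEquiv T r κ)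
  have h2 := Nat.card_congr (eltEquiv' T r κ)
  rw [Nat.card_sigma, Finset.sum_congr rfl fun c _ => c.2.2, Finset.sum_const, smul_eq_mul,
    card_univ, ← Nat.card_eq_fintype_card] at h1
  rw [Nat.card_prod, Nat.card_fun, Nat.card_eq_fintype_card (α := γ)] at h2
  rw [← h1, h2]

variable {κ} in
omit [Fintype γ] in
lemma card_range_iff (x : Fin (N + 1) → κ) :
    Nat.card (LinearMap.range (Am T x)) = Nat.card κ ^ r ↔
      finrank κ (LinearMap.range (Am T x)) = r := by
  rw [Module.natCard_eq_pow_finrank (K := κ) (V := LinearMap.range (Am T x))]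
  exact (Nat.pow_right_injective (Finite.one_lt_card (α := κ))).eq_iff

end Count

section Minors

variable {N b c : ℕ} (T : Fin (N + 1) → Fin b → Fin c → ℤ)

/-- the matrix of `w ↦ T((1, x), w)` -/
def Mx {R : Type} [CommRing R] (x : Fin N → R) : Matrix (Fin c) (Fin b) R :=
  fun k j => ∑ i, (T i j k : R) * (Fin.cons 1 x : Fin (N + 1) → R) i

lemma rank_Mx {κ : Type} [Field κ] (x : Fin N → κ) :
    (Mx T x).rank = finrank κ (LinearMap.range (Am T (Fin.cons 1 x : Fin (N + 1) → κ))) := by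
  have h : (Mx T x).mulVecLin = Am T (Fin.cons 1 x : Fin (N + 1) → κ) := by
    apply LinearMap.ext
    intro w
    funext k
    change ∑ j, Mx T x k j * w j = bil T (Fin.cons 1 x : Fin (N + 1) → κ) w k
    unfold bil
    rw [Finset.sum_comm]
    refine sum_congr rfl fun j _ => ?_
    rw [Mx, sum_mul]
  rw [Matrix.rank, h]

/-- the minors of size `r + 1` -/
noncomputable def minT (r : ℕ) : Finset (MvPolynomial (Fin N) ℤ) := by
  classical
  exact univ.image fun fg : (Fin (r + 1) → Fin c) × (Fin (r + 1) → Fin b) =>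
    ((Mx T (X : Fin N → MvPolynomial (Fin N) ℤ)).submatrix fg.1 fg.2).det

lemma minT_iff {κ : Type} [Field κ] (x : Fin N → κ) (r : ℕ) :
    x ∈ affPoints (minT T r) κ ↔ (Mx T x).rank ≤ r := by
  classical
  have h0 : ∀ (k : Fin c) (j : Fin b),
      aeval x (Mx T (X : Fin N → MvPolynomial (Fin N) ℤ) k j) = Mx T x k j := by
    intro k j
    rw [Mx, Mx, map_sum]
    refine sum_congr rfl fun i _ => ?_
    rw [map_mul, map_intCast]
    congr 1
    refine Fin.cases ?_ (fun i => ?_) i
    · rw [Fin.cons_zero, Fin.cons_zero, map_one]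
    · rw [Fin.cons_succ, Fin.cons_succ, aeval_X]
  have h : ∀ (f : Fin (r + 1) → Fin c) (g : Fin (r + 1) → Fin b),
      aeval x ((Mx T (X : Fin N → MvPolynomial (Fin N) ℤ)).submatrix f g).det =
        ((Mx T x).submatrix f g).det := by
    intro f g
    rw [AlgHom.map_det]
    congr 1
    ext j k
    exact h0 _ _
  rw [rank_le_iff]
  change (∀ F ∈ minT T r, aeval x F = 0) ↔ _
  simp only [minT, mem_image, mem_univ, true_and, forall_exists_index, Prod.forall]
  constructor
  · intro h1 f g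
    rw [← h]
    exact h1 _ f g rfl
  · rintro h1 F f g rfl
    rw [h]
    exact h1 f g

/-- the number of the points of rank `r` -/
lemma card_rank {κ : Type} [Field κ] [Finite κ] (r : ℕ) :
    ((Nat.card {x : Fin N → κ // Nat.card (LinearMap.range
      (Am T (Fin.cons 1 x : Fin (N + 1) → κ))) = Nat.card κ ^ r} : ℕ) : ℤ) =
      Nat.card (affPoints (minT T r) κ) -
        if r = 0 then 0 else (Nat.card (affPoints (minT T (r - 1)) κ) : ℤ) := by
  classical
  have h1 : ∀ x : Fin N → κ, Nat.card (LinearMap.range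
      (Am T (Fin.cons 1 x : Fin (N + 1) → κ))) = Nat.card κ ^ r ↔ (Mx T x).rank = r := by
    intro x
    rw [card_range_iff, rank_Mx]
  rw [Nat.card_congr (Equiv.subtypeEquivRight h1)]
  have : Fintype (Fin N → κ) := Fintype.ofFinite _
  have h2 : ∀ s : ℕ, Nat.card (affPoints (minT T s) κ) =
      #{x : Fin N → κ | (Mx T x).rank ≤ s} := by
    intro s
    rw [Nat.card_congr (Equiv.subtypeEquivRight fun x => minT_iff T x s),
      Nat.card_eq_fintype_card, Fintype.card_subtype]
  rw [Nat.card_eq_fintype_card (α := {x : Fin N → κ // (Mx T x).rank = r}),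
    Fintype.card_subtype, h2]
  split_ifs with h
  · subst h
    simp
  · rw [h2, eq_sub_iff_add_eq]
    norm_cast
    rw [← card_union_of_disjoint]
    · congr 1
      ext x
      simp only [mem_union, mem_filter, mem_univ, true_and]
      omega
    · rw [disjoint_filter]
      intro x _ h3
      omega

end Minors

/-- **All closed subschemes of the affine space give the continuation for the classes.** -/
theorem cont_cls {N b c : ℕ} (h : ∀ G : Finset (MvPolynomial (Fin N) ℤ),
    AllContinue (count fun κ _ => affPoints G κ)) (T : Fin (N + 1) → Fin b → Fin c → ℤ) (r : ℕ) :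
    AllContinue (count fun κ _ => Cls T r κ) := by
  have h1 : AllContinue fun p k => count (fun κ _ => affPoints (minT T r) κ) p k -
      (if r = 0 then 0 else count (fun κ _ => affPoints (minT T (r - 1)) κ) p k) := by
    refine (h _).sub ?_
    split_ifs
    · exact AllContinue.zero
    · exact h _
  refine h1.scale ((c : ℤ) - r) fun p k hk => ?_
  have : Fact (p : ℕ).Prime := ⟨p.2⟩
  have hc := GaloisField.card (p : ℕ) k (by omega)
  have h2 := card_cls T r (GaloisField p k)
  have h3 := congrArg (fun t : ℕ => (t : ℂ)) h2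
  have h4 := congrArg (fun t : ℤ => (t : ℂ)) (card_rank T (κ := GaloisField p k) r)
  simp only [Int.cast_natCast] at h4
  push_cast at h3
  rw [h4, hc] at h3
  have hp0 : ((p : ℕ) : ℂ) ≠ 0 := Nat.cast_ne_zero.mpr p.2.ne_zero
  have hp1 : (((p : ℕ) : ℂ) ^ k) ^ r ≠ 0 := pow_ne_zero _ (pow_ne_zero _ hp0)
  have h5 : (((p : ℕ) : ℂ) ^ ((c : ℤ) - r)) ^ k * (((p : ℕ) : ℂ) ^ k) ^ r =
      (((p : ℕ) : ℂ) ^ k) ^ c := by
    rw [← pow_mul, ← pow_mul, ← zpow_natCast, ← zpow_natCast ((p : ℕ) : ℂ) (k * r),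
      ← zpow_natCast ((p : ℕ) : ℂ) (k * c), ← zpow_mul, ← zpow_add₀ hp0]
    congr 1
    push_cast
    ring
  rw [Fintype.card_fin, Nat.cast_pow, ← h5] at h3
  have h6 : (((Nat.card (affPoints (minT T r) (GaloisField p k)) : ℤ) -
      (if r = 0 then 0 else (Nat.card (affPoints (minT T (r - 1)) (GaloisField p k)) : ℤ) : ℤ) :
        ℤ) : ℂ) = count (fun κ _ => affPoints (minT T r) κ) p k -
      (if r = 0 then 0 else count (fun κ _ => affPoints (minT T (r - 1)) κ) p k) := by
    split_ifs <;> simp [count]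
  rw [← h6]
  apply mul_right_cancel₀ hp1
  calc (Nat.card (Cls T r (GaloisField p k)) : ℂ) * (((p : ℕ) : ℂ) ^ k) ^ r = _ := h3
    _ = _ := by ring

/-- **Every closed subscheme of the affine space occurs.** -/
theorem cls_aff {N : ℕ} (G : Finset (MvPolynomial (Fin N) ℤ)) :
    ∃ (b c : ℕ) (T : Fin (N + 1) → Fin b → Fin c → ℤ) (r t : ℕ),
      ∀ (κ : Type) [Field κ] [Finite κ],
        Nat.card (Cls T r κ) = Nat.card κ ^ t * Nat.card (affPoints G κ) := by
  classical
  obtain ⟨d, Φ, hd, hΦ⟩ := exists_forms_aff G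
  let e : Fin (N + 1) → Bool := fun _ => true
  let eβ := (Fintype.equivFin (Col (N + 1) d)).symm
  let eγ := (Fintype.equivFin (Row (N + 1) d ↥G)).symm
  let T := tr (ten Φ e) (Equiv.refl (Fin (N + 1))) eβ eγ
  let r := Fintype.card (Col (N + 1) d) - 1
  have hr : r ≤ Fintype.card (Row (N + 1) d ↥G) := by
    simp only [r, Fintype.card_sum, Fintype.card_prod, Fintype.card_fin, Fintype.card_fun]
    have h1 : 1 ≤ (N + 1) ^ d := Nat.one_le_pow _ _ (by omega)
    have h2 : (N + 1) ^ d ≤ (N + 1) * ((N + 1) * (d * (N + 1) ^ d)) := by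
      calc (N + 1) ^ d = 1 * (1 * (1 * (N + 1) ^ d)) := by ring
        _ ≤ (N + 1) * ((N + 1) * (d * (N + 1) ^ d)) := by gcongr <;> omega
    omega
  refine ⟨_, _, T, r, Fintype.card (Row (N + 1) d ↥G) - r, fun κ _ _ => ?_⟩
  have hq : 1 < Nat.card κ := Finite.one_lt_card
  have h1 := card_cls T r κ
  have h2 : ∀ x : Fin N → κ, Nat.card (LinearMap.range
      (Am T (Fin.cons 1 x : Fin (N + 1) → κ))) = Nat.card κ ^ r ↔ x ∈ affPoints G κ := by
    intro x
    have h3 : finrank κ (Ker T (Fin.cons 1 x : Fin (N + 1) → κ)) =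
        finrank κ (Ker (ten Φ e) (Fin.cons 1 x : Fin (N + 1) → κ)) :=
      finrank_ker_tr (ten Φ e) (Equiv.refl _) eβ eγ _
    have h4 : finrank κ (LinearMap.range (Am T (Fin.cons 1 x : Fin (N + 1) → κ))) +
        finrank κ (Ker T (Fin.cons 1 x : Fin (N + 1) → κ)) = Fintype.card (Col (N + 1) d) := by
      have h := (Am T (Fin.cons 1 x : Fin (N + 1) → κ)).finrank_range_add_finrank_ker
      rwa [finrank_fintype_fun_eq_card, Fintype.card_fin] at h
    have h5 : 1 ≤ Fintype.card (Col (N + 1) d) := one_le_card _ _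
    have h6 : (fun i => (Fin.cons 1 x : Fin (N + 1) → κ) (Fin.succ i)) = x := by
      funext i
      rw [Fin.cons_succ]
    rw [card_range_iff]
    have h7 : finrank κ (LinearMap.range (Am T (Fin.cons 1 x : Fin (N + 1) → κ))) = r ↔
        finrank κ (Ker (ten Φ e) (Fin.cons 1 x : Fin (N + 1) → κ)) = 1 := by
      rw [← h3]
      change _ = Fintype.card (Col (N + 1) d) - 1 ↔ _
      omega
    rw [h7, good_iff hd]
    have h8 := hΦ κ (Fin.cons 1 x : Fin (N + 1) → κ) (Fin.cons_zero _ _)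
    rw [h6] at h8
    rw [← h8]
    constructor
    · exact fun h => h.2
    · exact fun h => ⟨⟨0, rfl, by rw [Fin.cons_zero]; exact one_ne_zero⟩, h⟩
  rw [Nat.card_congr (Equiv.subtypeEquivRight h2), Fintype.card_fin] at h1
  have h3 : Nat.card κ ^ Fintype.card (Row (N + 1) d ↥G) =
      Nat.card κ ^ (Fintype.card (Row (N + 1) d ↥G) - r) * Nat.card κ ^ r := by
    rw [← pow_add, Nat.sub_add_cancel hr]
  rw [h3, ← mul_assoc] at h1
  rw [Nat.eq_of_mul_eq_mul_right (pow_pos (by omega) r) h1, mul_comm]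

end Pool.Agent.KS6_93.CG
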