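import Mathlib

/-!
# The groups of class two given by an integral tensor
-/

set_option autoImplicit false

namespace Pool.Agent.KS6_93.CG

open Finset Module

/-- The bilinear map `T(v, w)_k = ∑ T i j k v_i w_j`. -/
def bil {α β γ : Type} [Fintype α] [Fintype β] (T : α → β → γ → ℤ) {R : Type} [CommRing R]
    (v : α → R) (w : β → R) : γ → R := fun k => ∑ i, ∑ j, (T i j k : R) * v i * w j

/-- The elements `(v, w, z)` of `R^α × R^β × R^γ`. -/
@[ext]
structure Grp {α β γ : Type} (T : α → β → γ → ℤ) (R : Type) where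
  /-- first component -/
  v : α → R
  /-- second component -/
  w : β → R
  /-- third component -/
  z : γ → R

section

variable {α β γ : Type} [Fintype α] [Fintype β] (T : α → β → γ → ℤ) {R : Type} [CommRing R]

lemma bil_add_left (v v' : α → R) (w : β → R) : bil T (v + v') w = bil T v w + bil T v' w := by
  funext k
  simp only [bil, Pi.add_apply, mul_add, add_mul, sum_add_distrib]

lemma bil_add_right (v : α → R) (w w' : β → R) : bil T v (w + w') = bil T v w + bil T v w' := by
  funext k
  simp only [bil, Pi.add_apply, mul_add, sum_add_distrib]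

lemma bil_smul_left (c : R) (v : α → R) (w : β → R) : bil T (c • v) w = c • bil T v w := by
  funext k
  simp only [bil, Pi.smul_apply, smul_eq_mul, mul_sum]
  exact sum_congr rfl fun i _ => sum_congr rfl fun j _ => by ring

lemma bil_smul_right (c : R) (v : α → R) (w : β → R) : bil T v (c • w) = c • bil T v w := by
  funext k
  simp only [bil, Pi.smul_apply, smul_eq_mul, mul_sum]
  exact sum_congr rfl fun i _ => sum_congr rfl fun j _ => by ring

@[simp] lemma bil_zero_left (w : β → R) : bil T (0 : α → R) w = 0 := by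
  funext k
  simp [bil]

@[simp] lemma bil_zero_right (v : α → R) : bil T v (0 : β → R) = 0 := by
  funext k
  simp [bil]

lemma bil_neg_left (v : α → R) (w : β → R) : bil T (-v) w = -bil T v w := by
  funext k
  simp [bil]

lemma bil_neg_right (v : α → R) (w : β → R) : bil T v (-w) = -bil T v w := by
  funext k
  simp [bil]

variable {T}

/-- The group with the multiplication
`(v, w, z) (v', w', z') = (v + v', w + w', z + z' + T(v, w'))`. -/
instance : Group (Grp T R) :=
  letI : Mul (Grp T R) := ⟨fun x y => ⟨x.v + y.v, x.w + y.w, x.z + y.z + bil T x.v y.w⟩⟩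
  letI : One (Grp T R) := ⟨⟨0, 0, 0⟩⟩
  letI : Inv (Grp T R) := ⟨fun x => ⟨-x.v, -x.w, -x.z + bil T x.v x.w⟩⟩
  Group.ofLeftAxioms
    (fun x y z => by
      refine Grp.ext (add_assoc _ _ _) (add_assoc _ _ _) ?_
      change x.z + y.z + bil T x.v y.w + z.z + bil T (x.v + y.v) z.w =
        x.z + (y.z + z.z + bil T y.v z.w) + bil T x.v (y.w + z.w)
      rw [bil_add_left, bil_add_right]
      abel)
    (fun x => by
      refine Grp.ext (zero_add _) (zero_add _) ?_
      change 0 + x.z + bil T (0 : α → R) x.w = x.z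
      rw [bil_zero_left, zero_add, add_zero])
    (fun x => by
      refine Grp.ext (neg_add_cancel _) (neg_add_cancel _) ?_
      change -x.z + bil T x.v x.w + x.z + bil T (-x.v) x.w = 0
      rw [bil_neg_left]
      abel)

@[simp] lemma mul_v (x y : Grp T R) : (x * y).v = x.v + y.v := rfl
@[simp] lemma mul_w (x y : Grp T R) : (x * y).w = x.w + y.w := rfl
@[simp] lemma mul_z (x y : Grp T R) : (x * y).z = x.z + y.z + bil T x.v y.w := rfl
@[simp] lemma one_v : (1 : Grp T R).v = 0 := rfl
@[simp] lemma one_w : (1 : Grp T R).w = 0 := rfl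
@[simp] lemma one_z : (1 : Grp T R).z = 0 := rfl
@[simp] lemma inv_v (x : Grp T R) : (x⁻¹).v = -x.v := rfl
@[simp] lemma inv_w (x : Grp T R) : (x⁻¹).w = -x.w := rfl
@[simp] lemma inv_z (x : Grp T R) : (x⁻¹).z = -x.z + bil T x.v x.w := rfl

/-- The commutator with an element. -/
lemma conj_eq (h g : Grp T R) : h * g * h⁻¹ = ⟨g.v, g.w, g.z + (bil T h.v g.w - bil T g.v h.w)⟩ := by
  refine Grp.ext ?_ ?_ ?_
  · simp
  · simp
  · simp only [mul_z, mul_v, inv_z, inv_w, bil_add_left, bil_neg_right]
    abel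

lemma comm_iff (g h : Grp T R) : h * g = g * h ↔ bil T h.v g.w - bil T g.v h.w = 0 := by
  rw [sub_eq_zero, Grp.ext_iff]
  simp only [mul_v, mul_w, mul_z]
  constructor
  · rintro ⟨-, -, h3⟩
    have : h.z + g.z + bil T h.v g.w = h.z + g.z + bil T g.v h.w := by
      rw [h3]
      abel
    exact add_left_cancel this
  · intro h1
    refine ⟨add_comm _ _, add_comm _ _, ?_⟩
    rw [h1]
    abel

end

section Field

variable {α β γ : Type} [Fintype α] [Fintype β] (T : α → β → γ → ℤ) {κ : Type} [Field κ]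

/-- `(v', w') ↦ T(v', w) - T(v, w')` -/
def Lm (v : α → κ) (w : β → κ) : (α → κ) × (β → κ) →ₗ[κ] (γ → κ) where
  toFun x := bil T x.1 w - bil T v x.2
  map_add' x y := by
    rw [Prod.fst_add, Prod.snd_add, bil_add_left, bil_add_right]
    abel
  map_smul' c x := by
    rw [Prod.smul_fst, Prod.smul_snd, bil_smul_left, bil_smul_right, smul_sub]
    rfl

/-- `w ↦ T(x, w)` -/
def Am (x : α → κ) : (β → κ) →ₗ[κ] (γ → κ) where
  toFun w := bil T x w
  map_add' := bil_add_right T x
  map_smul' c w := bil_smul_right T c x w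

variable {T}

lemma Lm_apply (v v' : α → κ) (w w' : β → κ) : Lm T v w (v', w') = bil T v' w - bil T v w' := rfl

lemma Am_apply (x : α → κ) (w : β → κ) : Am T x w = bil T x w := rfl

/-- The homomorphism with the kernel `C(g)`. -/
def toComm (g : Grp T κ) : Grp T κ →* Multiplicative (γ → κ) where
  toFun h := Multiplicative.ofAdd (Lm T g.v g.w (h.v, h.w))
  map_one' := by
    change Multiplicative.ofAdd (Lm T g.v g.w ((0 : α → κ), (0 : β → κ))) = 1
    rw [show (((0 : α → κ), (0 : β → κ)) : (α → κ) × (β → κ)) = 0 from rfl, map_zero]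
    rfl
  map_mul' h h' := by
    rw [← ofAdd_add, ← map_add]
    rfl

lemma ker_toComm (g : Grp T κ) : (toComm g).ker = Subgroup.centralizer {g} := by
  ext h
  rw [MonoidHom.mem_ker, Subgroup.mem_centralizer_singleton_iff, comm_iff]
  change Multiplicative.ofAdd (Lm T g.v g.w (h.v, h.w)) = 1 ↔ _
  rw [ofAdd_eq_one, Lm_apply]

lemma mem_centralizer (g h : Grp T κ) :
    h ∈ Subgroup.centralizer {g} ↔ bil T h.v g.w - bil T g.v h.w = 0 := by
  rw [Subgroup.mem_centralizer_singleton_iff, comm_iff]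

/-- **The index of the centralizer.** -/
theorem index_centralizer (g : Grp T κ) :
    (Subgroup.centralizer {g}).index = Nat.card (LinearMap.range (Lm T g.v g.w)) := by
  rw [← ker_toComm, Subgroup.index_ker]
  refine Nat.card_congr
    { toFun := fun y => ⟨Multiplicative.toAdd y.1, ?_⟩
      invFun := fun y => ⟨Multiplicative.ofAdd y.1, ?_⟩
      left_inv := fun _ => rfl
      right_inv := fun _ => rfl }
  · obtain ⟨h, hh⟩ := y.2
    exact ⟨(h.v, h.w), by rw [← hh]; rfl⟩
  · obtain ⟨⟨v', w'⟩, hh⟩ := y.2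
    exact ⟨⟨v', w', 0⟩, by rw [← hh]; rfl⟩

/-- **The conjugates of an element.** -/
theorem card_class (g : Grp T κ) :
    Nat.card (ConjClasses.mk g).carrier = Nat.card (LinearMap.range (Lm T g.v g.w)) := by
  refine Nat.card_congr
    { toFun := fun y => ⟨y.1.z - g.z, ?_⟩
      invFun := fun y => ⟨⟨g.v, g.w, g.z + y.1⟩, ?_⟩
      left_inv := fun y => ?_
      right_inv := fun y => Subtype.ext (add_sub_cancel_left _ _) }
  · obtain ⟨y, hy⟩ := y
    rw [ConjClasses.mem_carrier_iff_mk_eq, ConjClasses.mk_eq_mk_iff_isConj] at hy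
    obtain ⟨h, hh⟩ := isConj_iff.mp hy.symm
    rw [conj_eq] at hh
    refine ⟨(h.v, h.w), ?_⟩
    rw [Lm_apply]
    change _ = y.z - g.z
    rw [← hh]
    exact (add_sub_cancel_left _ _).symm
  · obtain ⟨⟨v', w'⟩, hh⟩ := y.2
    rw [ConjClasses.mem_carrier_iff_mk_eq, ConjClasses.mk_eq_mk_iff_isConj]
    refine IsConj.symm (isConj_iff.mpr ⟨⟨v', w', 0⟩, ?_⟩)
    rw [conj_eq, ← hh]
    rfl
  · obtain ⟨y, hy⟩ := y
    rw [ConjClasses.mem_carrier_iff_mk_eq, ConjClasses.mk_eq_mk_iff_isConj] at hy
    obtain ⟨h, hh⟩ := isConj_iff.mp hy.symm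
    rw [conj_eq] at hh
    have e1 : g.v = y.v := by rw [← hh]
    have e2 : g.w = y.w := by rw [← hh]
    exact Subtype.ext (Grp.ext e1 e2 (add_sub_cancel _ _))

end Field

end Pool.Agent.KS6_93.CG
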