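import Pool.Agent.KS6_93.CG.Cls

/-!
# The L-functions of `q ^ t #X`
-/

set_option autoImplicit false

namespace Pool.Agent.KS6_93.CG

open Finset MvPolynomial Pool.Agent.KS6_3.B2

section Lemmas

variable {S : Set Nat.Primes} {N N' : Nat.Primes → ℕ → ℂ} {i : ℤ}

lemma isL_congr {L : ℂ → ℂ} (h : IsL S N i L)
    (hN : ∀ p, p ∉ S → ∀ k, 1 ≤ k → N' p k = N p k) : IsL S N' i L := by
  obtain ⟨μ, hμ, σ, hσ⟩ := h
  exact ⟨μ, fun p hp => isFrob_congr (hμ p hp) (hN p hp), σ, hσ⟩

lemma isL_scale (c : ℤ) {F : ℂ → ℂ} (h : IsL S N i F)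
    (hN : ∀ p, p ∉ S → ∀ k, 1 ≤ k → N' p k = (((p : ℕ) : ℂ) ^ c) ^ k * N p k) :
    IsL S N' (i + 2 * c) fun s => F (s - c) := by
  obtain ⟨μ, hμ, σ, hσ⟩ := h
  refine ⟨fun p => (μ p).mapDomain fun α => ((p : ℕ) : ℂ) ^ c * α, fun p hp => ?_, σ + c,
    fun s hs => ?_⟩
  · constructor
    · intro β hβ
      obtain ⟨α, hα, rfl⟩ := mem_image.mp (Finsupp.mapDomain_support hβ)
      obtain ⟨w, hw⟩ := (hμ p hp).1 α hα
      refine ⟨2 * c + w, ?_⟩
      rw [norm_sq_mul, hw, zpow_add₀ (Nat.cast_ne_zero.mpr p.2.ne_zero)]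
    · intro k hk
      rw [hN p hp k hk, (hμ p hp).2 k hk, Finsupp.sum_mapDomain_index (by simp)
        (fun α b₁ b₂ => by push_cast; ring), Finsupp.mul_sum]
      apply Finsupp.sum_congr
      intro α _
      rw [mul_pow]
      ring
  · have hs1 : σ < (s - (c : ℂ)).re := by
      rw [Complex.sub_re, Complex.intCast_re]
      linarith
    obtain ⟨h3, h4⟩ := hσ _ hs1
    refine ⟨h3, h4.congr_fun fun p => ?_⟩
    have hp0 : (((p : Nat.Primes) : ℕ) : ℝ) ≠ 0 := Nat.cast_ne_zero.mpr p.1.2.ne_zero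
    have hpc : (((p : Nat.Primes) : ℕ) : ℂ) ≠ 0 := Nat.cast_ne_zero.mpr p.1.2.ne_zero
    have hnorm : ∀ α : ℂ, ‖(((p : Nat.Primes) : ℕ) : ℂ) ^ c * α‖ ^ 2 =
        (((p : Nat.Primes) : ℕ) : ℝ) ^ (i + 2 * c) ↔ ‖α‖ ^ 2 = (((p : Nat.Primes) : ℕ) : ℝ) ^ i := by
      intro α
      rw [norm_sq_mul, zpow_add₀ hp0, mul_comm]
      exact mul_left_inj' (zpow_ne_zero _ hp0)
    have hneg : ((i + 2 * c).negOnePow : ℤ) = (i.negOnePow : ℤ) := by
      rw [Int.negOnePow_add, Int.negOnePow_two_mul, mul_one]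
    have hsupp : (Finsupp.mapDomain (fun α => (((p : Nat.Primes) : ℕ) : ℂ) ^ c * α)
        (μ p)).support = (μ p).support.image fun α => (((p : Nat.Primes) : ℕ) : ℂ) ^ c * α := by
      classical
      exact Finsupp.mapDomain_support_of_injective (mul_inj p.1.2 c) _
    unfold eulerFactor
    rw [hsupp]
    symm
    apply prod_bij (fun α _ => (((p : Nat.Primes) : ℕ) : ℂ) ^ c * α)
    · intro α hα
      rw [mem_filter] at hα ⊢
      exact ⟨mem_image_of_mem _ hα.1, (hnorm α).mpr hα.2⟩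
    · intro α _ β _ h
      exact mul_inj p.1.2 c h
    · intro β hβ
      rw [mem_filter] at hβ
      obtain ⟨α, hα, rfl⟩ := mem_image.mp hβ.1
      exact ⟨α, mem_filter.mpr ⟨hα, (hnorm α).mp hβ.2⟩, rfl⟩
    · intro α _
      have h1 : (μ p).mapDomain (fun α => (((p : Nat.Primes) : ℕ) : ℂ) ^ c * α)
          ((((p : Nat.Primes) : ℕ) : ℂ) ^ c * α) = μ p α :=
        Finsupp.mapDomain_apply (mul_inj p.1.2 c) _ α
      have h2 : (((p : Nat.Primes) : ℕ) : ℂ) ^ (-(s - (c : ℂ))) =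
          (((p : Nat.Primes) : ℕ) : ℂ) ^ c * (((p : Nat.Primes) : ℕ) : ℂ) ^ (-s) := by
        rw [neg_sub, sub_eq_add_neg, Complex.cpow_add _ _ hpc, Complex.cpow_intCast]
      rw [h1, h2, hneg]
      congr 1
      ring

lemma isFrob_scale {p : ℕ} (hp : p.Prime) (c : ℤ) {M : ℕ → ℂ} {μ : ℂ →₀ ℤ} (h : IsFrob p M μ) :
    IsFrob p (fun k => ((p : ℂ) ^ c) ^ k * M k) (μ.mapDomain fun α => (p : ℂ) ^ c * α) := by
  constructor
  · intro β hβ
    obtain ⟨α, hα, rfl⟩ := mem_image.mp (Finsupp.mapDomain_support hβ)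
    obtain ⟨w, hw⟩ := h.1 α hα
    refine ⟨2 * c + w, ?_⟩
    rw [norm_sq_mul, hw, zpow_add₀ (Nat.cast_ne_zero.mpr hp.ne_zero)]
  · intro k hk
    change _ * M k = _
    rw [h.2 k hk, Finsupp.sum_mapDomain_index (by simp)
      (fun α b₁ b₂ => by push_cast; ring), Finsupp.mul_sum]
    apply Finsupp.sum_congr
    intro α _
    rw [mul_pow]
    ring

end Lemmas

/-- For every finite field with `q` elements the number of the elements of `Y` is `q ^ t #X`. The
eigenvalues of Frobenius of `Y` are those of `X` multiplied by `p ^ t`. For every set `S` of primes and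
every integer `i` the L-functions `L(s)` of `X` of weight `i` are those for which `L(s - t)` is the
L-function of `Y` of weight `i + 2 t`; one has a meromorphic (a holomorphic) continuation if and only if
the other one has. (For `t = 0` the numbers, the eigenvalues and the L-functions are the same.) -/
def Realizes (t : ℕ) (X Y : ∀ (κ : Type) [Field κ], Type) : Prop :=
  (∀ (κ : Type) [Field κ] [Finite κ], Nat.card (Y κ) = Nat.card κ ^ t * Nat.card (X κ)) ∧
  (∀ (p : Nat.Primes) (μ : ℂ →₀ ℤ), IsFrob p (count X p) μ ↔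
    IsFrob p (count Y p) (μ.mapDomain fun α => ((p : ℕ) : ℂ) ^ t * α)) ∧
  ∀ (S : Set Nat.Primes) (i : ℤ),
    (∀ L : ℂ → ℂ, IsL S (count X) i L ↔ IsL S (count Y) (i + 2 * t) fun s => L (s - t)) ∧
    ((∃ F : ℂ → ℂ, MeromorphicOn F Set.univ ∧ IsL S (count X) i F) ↔
      ∃ F : ℂ → ℂ, MeromorphicOn F Set.univ ∧ IsL S (count Y) (i + 2 * t) F) ∧
    ((∃ F : ℂ → ℂ, Differentiable ℂ F ∧ IsL S (count X) i F) ↔
      ∃ F : ℂ → ℂ, Differentiable ℂ F ∧ IsL S (count Y) (i + 2 * t) F)

theorem realizes {t : ℕ} {X Y : ∀ (κ : Type) [Field κ], Type}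
    (h : ∀ (κ : Type) [Field κ] [Finite κ], Nat.card (Y κ) = Nat.card κ ^ t * Nat.card (X κ)) :
    Realizes t X Y := by
  have hN : ∀ (p : Nat.Primes) (k : ℕ), 1 ≤ k →
      count Y p k = (((p : ℕ) : ℂ) ^ (t : ℤ)) ^ k * count X p k := by
    intro p k hk
    have : Fact (p : ℕ).Prime := ⟨p.2⟩
    have h3 := h (GaloisField p k)
    rw [GaloisField.card (p : ℕ) k (by omega)] at h3
    have h4 := congrArg (fun t : ℕ => (t : ℂ)) h3
    push_cast at h4
    change (Nat.card (Y (GaloisField p k)) : ℂ) = _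
    rw [h4, zpow_natCast, ← pow_mul, ← pow_mul, mul_comm k]
    rfl
  have hN' : ∀ (p : Nat.Primes) (k : ℕ), 1 ≤ k →
      count X p k = (((p : ℕ) : ℂ) ^ (-(t : ℤ))) ^ k * count Y p k := by
    intro p k hk
    have hp0 : ((p : ℕ) : ℂ) ≠ 0 := Nat.cast_ne_zero.mpr p.2.ne_zero
    rw [hN p k hk, zpow_neg, inv_pow, ← mul_assoc,
      inv_mul_cancel₀ (pow_ne_zero _ (zpow_ne_zero _ hp0)), one_mul]
  refine ⟨h, fun p μ => ?_, fun S i => ?_⟩
  · constructor
    · intro hμ
      have h1 := isFrob_scale p.2 (t : ℤ) hμ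
      simp only [zpow_natCast] at h1
      refine isFrob_congr h1 fun k hk => ?_
      rw [hN p k hk, zpow_natCast]
    · intro hν
      have h2 := isFrob_scale p.2 (-(t : ℤ)) hν
      have hp0 : ((p : ℕ) : ℂ) ≠ 0 := Nat.cast_ne_zero.mpr p.2.ne_zero
      have h3 : (fun α : ℂ => ((p : ℕ) : ℂ) ^ (-(t : ℤ)) * α) ∘
          (fun α : ℂ => ((p : ℕ) : ℂ) ^ t * α) = id := by
        funext α
        rw [Function.comp_apply, ← mul_assoc, zpow_neg, zpow_natCast,
          inv_mul_cancel₀ (pow_ne_zero _ hp0), one_mul, id]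
      rw [← Finsupp.mapDomain_comp, h3, Finsupp.mapDomain_id] at h2
      exact isFrob_congr h2 fun k hk => hN' p k hk
  · have key : ∀ L : ℂ → ℂ, IsL S (count X) i L ↔
        IsL S (count Y) (i + 2 * t) fun s => L (s - t) := by
      intro L
      constructor
      · intro hL
        exact isL_scale (t : ℤ) hL fun p _ k hk => hN p k hk
      · intro hL
        have h4 := isL_scale (N' := count X) (-(t : ℤ)) hL fun p _ k hk => hN' p k hk
        have e1 : i + 2 * (t : ℤ) + 2 * -(t : ℤ) = i := by ring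
        rw [e1] at h4
        convert h4 using 2 with s
        push_cast
        rw [sub_neg_eq_add, add_sub_cancel_right]
    refine ⟨key, ?_, ?_⟩
    · constructor
      · rintro ⟨F, hF, hL⟩
        refine ⟨fun s => F (s - t), fun s _ => ?_, (key F).mp hL⟩
        exact (hF (s - t) (Set.mem_univ _)).comp_analyticAt (f := F) (g := fun s => s - (t : ℂ))
          (analyticAt_id.sub analyticAt_const)
      · rintro ⟨F, hF, hL⟩
        refine ⟨fun s => F (s + t), fun s _ => ?_, ?_⟩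
        · exact (hF (s + t) (Set.mem_univ _)).comp_analyticAt (f := F) (g := fun s => s + (t : ℂ))
            (analyticAt_id.add analyticAt_const)
        · rw [key]
          convert hL using 2 with s
          rw [sub_add_cancel]
    · constructor
      · rintro ⟨F, hF, hL⟩
        exact ⟨fun s => F (s - t), hF.comp (differentiable_id.sub_const _), (key F).mp hL⟩
      · rintro ⟨F, hF, hL⟩
        refine ⟨fun s => F (s + t), hF.comp (differentiable_id.add_const _), ?_⟩
        rw [key]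
        convert hL using 2 with s
        rw [sub_add_cancel]

/-- the continuation for the classes gives the one for the closed subschemes -/
theorem cont_aff {N : ℕ} (h : ∀ (b c : ℕ) (T : Fin (N + 1) → Fin b → Fin c → ℤ) (r : ℕ),
    AllContinue (count fun κ _ => Cls T r κ)) (G : Finset (MvPolynomial (Fin N) ℤ)) :
    AllContinue (count fun κ _ => affPoints G κ) := by
  obtain ⟨b, c, T, r, t, hT⟩ := cls_aff G
  have h1 := realizes (X := fun κ _ => affPoints G κ) (Y := fun κ _ => Cls T r κ) hT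
  intro S i hS
  rw [(h1.2.2 S i).2.1]
  exact h b c T r S _ hS

end Pool.Agent.KS6_93.CG
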