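import Pool.Agent.KS6_93.CG.Cent

/-!
# The centralizers and the points of projective and affine schemes
-/

set_option autoImplicit false

namespace Pool.Agent.KS6_93.CG

open Finset Module MvPolynomial Pool.Agent.KS6_3.B2

lemma exists_forms_proj {m : ℕ} (G : Finset (MvPolynomial (Fin m) ℤ))
    (hG : ∀ F ∈ G, ∃ d, F.IsHomogeneous d) :
    ∃ (d : ℕ) (Φ : ↥G × Fin m → (Fin d → Fin m) → ℤ), 1 ≤ d ∧
      ∀ (κ : Type) [Field κ] (x : Fin m → κ), x ≠ 0 →
        ((∀ φ, formVal (Φ φ) x = 0) ↔ ∀ F ∈ G, aeval x F = 0) := by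
  classical
  let d : ℕ := 1 + ∑ F ∈ G, F.totalDegree
  have hd : ∀ F ∈ G, F.totalDegree ≤ d := by
    intro F hF
    have := Finset.single_le_sum (f := fun F : MvPolynomial (Fin m) ℤ => F.totalDegree)
      (fun _ _ => Nat.zero_le _) hF
    omega
  have h1 : ∀ φ : ↥G × Fin m, ∃ (Φ : (Fin d → Fin m) → ℤ) (t : ℕ), ∀ (κ : Type) [Field κ]
      (x : Fin m → κ), formVal Φ x = x φ.2 ^ t * aeval x φ.1.1 := by
    intro φ
    obtain ⟨e, he⟩ := hG φ.1.1 φ.1.2
    obtain ⟨Φ, hΦ⟩ := exists_form_hom φ.1.1 e he φ.2 d (hd _ φ.1.2)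
    exact ⟨Φ, _, hΦ⟩
  choose Φ t hΦ using h1
  refine ⟨d, Φ, by omega, fun κ _ x hx => ?_⟩
  constructor
  · intro h F hF
    obtain ⟨p, hp⟩ := Function.ne_iff.mp hx
    have h2 := h (⟨F, hF⟩, p)
    rw [hΦ] at h2
    exact (mul_eq_zero.mp h2).resolve_left (pow_ne_zero _ hp)
  · intro h φ
    rw [hΦ, h _ φ.1.2, mul_zero]

lemma exists_forms_aff {N : ℕ} (G : Finset (MvPolynomial (Fin N) ℤ)) :
    ∃ (d : ℕ) (Φ : ↥G → (Fin d → Fin (N + 1)) → ℤ), 1 ≤ d ∧
      ∀ (κ : Type) [Field κ] (x : Fin (N + 1) → κ), x 0 = 1 →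
        ((∀ φ, formVal (Φ φ) x = 0) ↔ (fun i => x (Fin.succ i)) ∈ affPoints G κ) := by
  classical
  let d : ℕ := 1 + ∑ F ∈ G, (rename Fin.succ F : MvPolynomial (Fin (N + 1)) ℤ).totalDegree
  have hd : ∀ F ∈ G, (rename Fin.succ F : MvPolynomial (Fin (N + 1)) ℤ).totalDegree ≤ d := by
    intro F hF
    have := Finset.single_le_sum (f := fun F : MvPolynomial (Fin N) ℤ =>
      (rename Fin.succ F : MvPolynomial (Fin (N + 1)) ℤ).totalDegree)
      (fun _ _ => Nat.zero_le _) hF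
    omega
  have h1 : ∀ φ : ↥G, ∃ (Φ : (Fin d → Fin (N + 1)) → ℤ), ∀ (κ : Type) [Field κ]
      (x : Fin (N + 1) → κ), x 0 = 1 → formVal Φ x = aeval (fun i => x (Fin.succ i)) φ.1 := by
    intro φ
    obtain ⟨Φ, hΦ⟩ := exists_form_aff (rename Fin.succ φ.1) (0 : Fin (N + 1)) d (hd _ φ.2)
    refine ⟨Φ, fun κ _ x hx => ?_⟩
    rw [hΦ κ x hx, aeval_rename]
    rfl
  choose Φ hΦ using h1
  refine ⟨d, Φ, by omega, fun κ _ x hx => ?_⟩
  constructor
  · intro h F hF
    rw [← hΦ ⟨F, hF⟩ κ x hx]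
    exact h _
  · intro h φ
    rw [hΦ φ κ x hx]
    exact h _ φ.2

lemma one_le_card (m d : ℕ) : 1 ≤ Fintype.card (Col m d) := by
  rw [Fintype.card_sum, Fintype.card_fin]
  omega

/-! ### Change of the index types -/

section Tr

variable {α β γ α' β' γ' : Type} [Fintype α] [Fintype β] [Fintype α'] [Fintype β']

/-- the tensor with other index types -/
def tr (T : α → β → γ → ℤ) (eα : α' ≃ α) (eβ : β' ≃ β) (eγ : γ' ≃ γ) : α' → β' → γ' → ℤ :=
  fun i j k => T (eα i) (eβ j) (eγ k)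

variable (T : α → β → γ → ℤ) (eα : α' ≃ α) (eβ : β' ≃ β) (eγ : γ' ≃ γ) {κ : Type} [Field κ]

lemma bil_tr (v : α → κ) (w : β → κ) :
    bil (tr T eα eβ eγ) (v ∘ eα) (w ∘ eβ) = bil T v w ∘ eγ := by
  funext k
  unfold bil tr
  refine Fintype.sum_equiv eα _ _ fun i => ?_
  exact Fintype.sum_equiv eβ _ _ fun j => rfl

/-- the isomorphism of the groups -/
def iso : Grp T κ ≃* Grp (tr T eα eβ eγ) κ where
  toFun x := ⟨x.v ∘ eα, x.w ∘ eβ, x.z ∘ eγ⟩
  invFun x := ⟨x.v ∘ eα.symm, x.w ∘ eβ.symm, x.z ∘ eγ.symm⟩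
  left_inv x := by
    refine Grp.ext ?_ ?_ ?_ <;> funext i <;> simp
  right_inv x := by
    refine Grp.ext ?_ ?_ ?_ <;> funext i <;> simp
  map_mul' x y := by
    refine Grp.ext rfl rfl ?_
    change (x.z + y.z + bil T x.v y.w) ∘ eγ = x.z ∘ eγ + y.z ∘ eγ +
      bil (tr T eα eβ eγ) (x.v ∘ eα) (y.w ∘ eβ)
    rw [bil_tr]
    rfl

lemma map_centralizer {A B : Type} [Group A] [Group B] (f : A ≃* B) (g : A) :
    (Subgroup.centralizer {g}).map f.toMonoidHom = Subgroup.centralizer {f g} := by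
  ext h
  rw [Subgroup.mem_map, Subgroup.mem_centralizer_singleton_iff]
  constructor
  · rintro ⟨x, hx, rfl⟩
    rw [Subgroup.mem_centralizer_singleton_iff] at hx
    change f x * f g = f g * f x
    rw [← map_mul, hx, map_mul]
  · intro hh
    refine ⟨f.symm h, ?_, f.apply_symm_apply h⟩
    rw [Subgroup.mem_centralizer_singleton_iff]
    apply f.injective
    rw [map_mul, map_mul, f.apply_symm_apply]
    exact hh

theorem card_cent_tr (r : ℕ) : Nat.card (Cent (tr T eα eβ eγ) r κ) = Nat.card (Cent T r κ) := by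
  symm
  let f : Grp T κ ≃* Grp (tr T eα eβ eγ) κ := iso T eα eβ eγ
  have hidx : ∀ H : Subgroup (Grp T κ), (H.map f.toMonoidHom).index = H.index := fun H =>
    Subgroup.index_map_of_bijective f.bijective H
  let F : Cent T r κ → Cent (tr T eα eβ eγ) r κ := fun H => ⟨H.1.map f.toMonoidHom, by
    obtain ⟨H, ⟨g, rfl⟩, h⟩ := H
    exact ⟨⟨f g, map_centralizer f g⟩, by rw [hidx]; exact h⟩⟩
  refine Nat.card_congr (Equiv.ofBijective F ⟨fun H H' h => ?_, fun H => ?_⟩)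
  · exact Subtype.ext (Subgroup.map_injective f.injective (congrArg Subtype.val h))
  · obtain ⟨H, ⟨g, rfl⟩, h⟩ := H
    have h1 := map_centralizer f (f.symm g)
    rw [f.apply_symm_apply] at h1
    refine ⟨⟨Subgroup.centralizer {f.symm g}, ⟨_, rfl⟩, ?_⟩, Subtype.ext h1⟩
    rw [← hidx, h1]
    exact h

/-- the isomorphism of the kernels -/
def kerIso (x : α → κ) : Ker T x ≃ₗ[κ] Ker (tr T eα eβ eγ) (x ∘ eα) where
  toFun w := ⟨w.1 ∘ eβ, by
    have h := w.2
    rw [LinearMap.mem_ker, Am_apply] at h ⊢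
    rw [bil_tr, h]
    rfl⟩
  invFun w := ⟨w.1 ∘ eβ.symm, by
    have h := w.2
    rw [LinearMap.mem_ker, Am_apply] at h ⊢
    have h1 := bil_tr T eα eβ eγ x (w.1 ∘ eβ.symm)
    have h2 : (w.1 ∘ eβ.symm) ∘ eβ = w.1 := by
      funext i
      simp
    rw [h2, h] at h1
    funext k
    have h3 := congrFun h1 (eγ.symm k)
    simp only [Pi.zero_apply, Function.comp_apply, Equiv.apply_symm_apply] at h3
    exact h3.symm⟩
  left_inv w := by
    apply Subtype.ext
    funext i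
    simp
  right_inv w := by
    apply Subtype.ext
    funext i
    simp
  map_add' w w' := rfl
  map_smul' c w := rfl

lemma finrank_ker_tr (x : α → κ) :
    finrank κ (Ker (tr T eα eβ eγ) (x ∘ eα)) = finrank κ (Ker T x) :=
  (kerIso T eα eβ eγ x).finrank_eq.symm

end Tr

/-- Every tensor with finite index types. -/
lemma exists_fin {α β γ : Type} [Fintype α] [Fintype β] [Fintype γ] (T : α → β → γ → ℤ) (r : ℕ) :
    ∃ (a b c : ℕ) (T' : Fin a → Fin b → Fin c → ℤ), ∀ (κ : Type) [Field κ],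
      Nat.card (Cent T' r κ) = Nat.card (Cent T r κ) :=
  ⟨_, _, _, tr T (Fintype.equivFin α).symm (Fintype.equivFin β).symm (Fintype.equivFin γ).symm,
    fun _ _ => card_cent_tr _ _ _ _ _⟩

/-- **The points of a projective scheme.** -/
theorem cent_proj {m : ℕ} (G : Finset (MvPolynomial (Fin m) ℤ))
    (hG : ∀ F ∈ G, ∃ d, F.IsHomogeneous d) :
    ∃ (a b c : ℕ) (T : Fin a → Fin b → Fin c → ℤ) (r : ℕ), ∀ (κ : Type) [Field κ] [Finite κ],
      Nat.card (Cent T r κ) = Nat.card (projPoints G κ) := by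
  classical
  obtain ⟨d, Φ, hd, hΦ⟩ := exists_forms_proj G hG
  obtain ⟨a, b, c, T, hT⟩ := exists_fin (big (ten Φ fun _ => true)) (Fintype.card (Col m d) - 1)
  refine ⟨a, b, c, T, Fintype.card (Col m d) - 1, fun κ _ _ => ?_⟩
  rw [hT κ, card_cent _ (one_le_card m d), card_lines hd]
  refine Nat.card_congr (Equiv.subtypeEquivRight fun P => ?_)
  have h0 := Projectivization.rep_nonzero P
  change Good Φ (fun _ => true) P.rep ↔ ∀ F ∈ G, aeval P.rep F = 0
  rw [← hΦ κ P.rep h0]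
  constructor
  · exact fun h => h.2
  · intro h
    obtain ⟨p, hp⟩ := Function.ne_iff.mp h0
    exact ⟨⟨p, rfl, hp⟩, h⟩

/-- **The points of an affine scheme.** -/
theorem cent_aff {N : ℕ} (G : Finset (MvPolynomial (Fin N) ℤ)) :
    ∃ (a b c : ℕ) (T : Fin a → Fin b → Fin c → ℤ) (r : ℕ), ∀ (κ : Type) [Field κ] [Finite κ],
      Nat.card (Cent T r κ) = Nat.card (affPoints G κ) := by
  classical
  obtain ⟨d, Φ, hd, hΦ⟩ := exists_forms_aff G
  let e : Fin (N + 1) → Bool := fun i => decide (i = 0)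
  have he : ∀ i, e i = true ↔ i = 0 := fun i => by simp [e]
  obtain ⟨a, b, c, T, hT⟩ := exists_fin (big (ten Φ e)) (Fintype.card (Col (N + 1) d) - 1)
  refine ⟨a, b, c, T, Fintype.card (Col (N + 1) d) - 1, fun κ _ _ => ?_⟩
  rw [hT κ, card_cent _ (one_le_card (N + 1) d), card_lines hd]
  -- the good vectors
  have hgood : ∀ x : Fin (N + 1) → κ, x 0 = 1 →
      (Good Φ e x ↔ (fun i => x (Fin.succ i)) ∈ affPoints G κ) := by
    intro x hx
    rw [← hΦ κ x hx]
    constructor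
    · exact fun h => h.2
    · exact fun h => ⟨⟨0, (he 0).mpr rfl, by rw [hx]; exact one_ne_zero⟩, h⟩
  have hne : ∀ x : Fin (N + 1) → κ, Good Φ e x → x 0 ≠ 0 := by
    rintro x ⟨⟨i, hi, hx⟩, -⟩
    rw [he] at hi
    rwa [hi] at hx
  have h1 : ∀ y : Fin N → κ, (Fin.cons 1 y : Fin (N + 1) → κ) ≠ 0 := by
    intro y h
    have := congrFun h 0
    rw [Fin.cons_zero] at this
    exact one_ne_zero this
  symm
  let f : affPoints G κ → {P : Projectivization κ (Fin (N + 1) → κ) // Good Φ e P.rep} :=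
    fun y => ⟨Projectivization.mk κ (Fin.cons 1 y.1 : Fin (N + 1) → κ) (h1 y.1), by
      obtain ⟨c, hc⟩ := Projectivization.exists_smul_eq_mk_rep κ
        (Fin.cons 1 y.1 : Fin (N + 1) → κ) (h1 y.1)
      have hc' : (c : κ) • (Fin.cons 1 y.1 : Fin (N + 1) → κ) = _ := hc
      rw [← hc', good_smul c.ne_zero, hgood _ (Fin.cons_zero _ _)]
      simpa using y.2⟩
  refine Nat.card_congr (Equiv.ofBijective f ⟨fun y y' h => ?_, fun P => ?_⟩)
  · have h2 : Projectivization.mk κ (Fin.cons 1 y.1 : Fin (N + 1) → κ) (h1 y.1) =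
        Projectivization.mk κ (Fin.cons 1 y'.1 : Fin (N + 1) → κ) (h1 y'.1) :=
      congrArg Subtype.val h
    rw [Projectivization.mk_eq_mk_iff'] at h2
    obtain ⟨c, hc⟩ := h2
    have h3 := congrFun hc 0
    rw [Pi.smul_apply, Fin.cons_zero, Fin.cons_zero, smul_eq_mul, mul_one] at h3
    rw [h3, one_smul] at hc
    refine Subtype.ext ?_
    funext i
    have h4 := congrFun hc (Fin.succ i)
    rw [Fin.cons_succ, Fin.cons_succ] at h4
    exact h4.symm
  · obtain ⟨P, hP⟩ := P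
    have h2 := hne _ hP
    have h3 : (Fin.cons 1 (fun i => P.rep (Fin.succ i) / P.rep 0) : Fin (N + 1) → κ) =
        (P.rep 0)⁻¹ • P.rep := by
      funext i
      refine Fin.cases ?_ (fun i => ?_) i
      · rw [Fin.cons_zero, Pi.smul_apply, smul_eq_mul, inv_mul_cancel₀ h2]
      · rw [Fin.cons_succ, Pi.smul_apply, smul_eq_mul, div_eq_inv_mul]
    have h4 : Good Φ e (Fin.cons 1 (fun i => P.rep (Fin.succ i) / P.rep 0) : Fin (N + 1) → κ) := by
      rw [h3, good_smul (inv_ne_zero h2)]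
      exact hP
    rw [hgood _ (Fin.cons_zero _ _)] at h4
    refine ⟨⟨fun i => P.rep (Fin.succ i) / P.rep 0, by simpa using h4⟩, Subtype.ext ?_⟩
    change Projectivization.mk κ _ _ = P
    conv_rhs => rw [← Projectivization.mk_rep P]
    rw [Projectivization.mk_eq_mk_iff']
    exact ⟨(P.rep 0)⁻¹, h3.symm⟩

end Pool.Agent.KS6_93.CG
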