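import Pool.Agent.KS6_93.CG.Lf

/-!
# The conjugacy classes of given size, and the smallest size
-/

set_option autoImplicit false

namespace Pool.Agent.KS6_93.CG

open Finset Module MvPolynomial Pool.Agent.KS6_3.B2

/-- The conjugacy classes of `G_T(κ)` with `q ^ r` elements. -/
def Siz {α β γ : Type} [Fintype α] [Fintype β] (T : α → β → γ → ℤ) (r : ℕ)
    (κ : Type) [Field κ] : Type :=
  {c : ConjClasses (Grp T κ) // Nat.card c.carrier = Nat.card κ ^ r}

section General

variable {α β γ : Type} [Fintype α] [Fintype β] [Fintype γ] (T : α → β → γ → ℤ) (r : ℕ)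
  (κ : Type) [Field κ] [Finite κ]

omit [Fintype γ] [Finite κ] in
lemma card_class_index (g : Grp T κ) :
    Nat.card (ConjClasses.mk g).carrier = (Subgroup.centralizer {g}).index := by
  rw [card_class, index_centralizer]

/-- elements and classes -/
def sizEquiv : {g : Grp T κ // (Subgroup.centralizer {g}).index = Nat.card κ ^ r} ≃
    Σ c : Siz T r κ, c.1.carrier where
  toFun g := ⟨⟨ConjClasses.mk g.1, by rw [card_class_index]; exact g.2⟩,
    ⟨g.1, ConjClasses.mem_carrier_mk⟩⟩
  invFun c := ⟨c.2.1, by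
    rw [← card_class_index, ConjClasses.mem_carrier_iff_mk_eq.mp c.2.2]
    exact c.1.2⟩
  left_inv g := rfl
  right_inv c := by
    obtain ⟨⟨c, hc⟩, ⟨g, hg⟩⟩ := c
    have h := ConjClasses.mem_carrier_iff_mk_eq.mp hg
    subst h
    rfl

theorem card_siz : Nat.card (Siz T r κ) * Nat.card κ ^ r =
    Nat.card {g : Grp T κ // (Subgroup.centralizer {g}).index = Nat.card κ ^ r} := by
  classical
  have : Finite (ConjClasses (Grp T κ)) := Quotient.finite _
  have : Finite (Siz T r κ) := Subtype.finite
  have : Fintype (Siz T r κ) := Fintype.ofFinite _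
  have h1 := Nat.card_congr (sizEquiv T r κ)
  rw [Nat.card_sigma, Finset.sum_congr rfl fun c _ => c.2, Finset.sum_const, smul_eq_mul,
    card_univ, ← Nat.card_eq_fintype_card] at h1
  exact h1.symm

end General

section Tr

variable {α β γ α' β' γ' : Type} [Fintype α] [Fintype β] [Fintype α'] [Fintype β']
  [Fintype γ] [Fintype γ'] (T : α → β → γ → ℤ) (eα : α' ≃ α) (eβ : β' ≃ β) (eγ : γ' ≃ γ)
  {κ : Type} [Field κ]

omit [Fintype γ] [Fintype γ'] in
lemma index_tr (g : Grp T κ) : (Subgroup.centralizer {iso T eα eβ eγ g}).index =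
    (Subgroup.centralizer {g}).index := by
  rw [← map_centralizer]
  exact Subgroup.index_map_of_bijective (iso T eα eβ eγ).bijective _

omit [Fintype γ] [Fintype γ'] in
lemma card_elts_tr (n : ℕ) :
    Nat.card {g : Grp (tr T eα eβ eγ) κ // (Subgroup.centralizer {g}).index = n} =
      Nat.card {g : Grp T κ // (Subgroup.centralizer {g}).index = n} := by
  symm
  refine Nat.card_congr ((iso T eα eβ eγ).toEquiv.subtypeEquiv fun g => ?_)
  change _ ↔ (Subgroup.centralizer {iso T eα eβ eγ g}).index = n
  rw [index_tr]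

omit [Fintype γ] [Fintype γ'] in
lemma breadth_tr {n : ℕ} (h : ∀ g : Grp T κ, (Subgroup.centralizer {g}).index ≤ n →
    (Subgroup.centralizer {g}).index = 1) (g : Grp (tr T eα eβ eγ) κ)
    (hg : (Subgroup.centralizer {g}).index ≤ n) : (Subgroup.centralizer {g}).index = 1 := by
  obtain ⟨g, rfl⟩ := (iso T eα eβ eγ).surjective g
  rw [index_tr] at hg ⊢
  exact h g hg

end Tr

section Big

variable {α β γ : Type} [Fintype α] [Fintype β] [Fintype γ] [DecidableEq β]
  (T : α → β → γ → ℤ) {κ : Type} [Field κ] [Finite κ]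

/-- The elements with `q ^ (b - 1)` conjugates. -/
theorem index_big (hβ : 1 ≤ Fintype.card β) (v : α ⊕ β → κ) (w : β → κ) (z : γ ⊕ (β × β) → κ) :
    (Subgroup.centralizer {(⟨v, w, z⟩ : Grp (big T) κ)}).index =
      Nat.card κ ^ (Fintype.card β - 1) ↔
      w = 0 ∧ (∀ b, v (Sum.inr b) = 0) ∧ finrank κ (Ker T fun a => v (Sum.inl a)) = 1 := by
  have hq : 1 < Nat.card κ := Finite.one_lt_card
  have hlt : Nat.card κ ^ (Fintype.card β - 1) < Nat.card κ ^ Fintype.card β :=
    Nat.pow_lt_pow_right hq (by omega)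
  have hrk : ∀ x : α → κ, Nat.card (LinearMap.range (Am T x)) =
      Nat.card κ ^ (Fintype.card β - 1) ↔ finrank κ (Ker T x) = 1 := by
    intro x
    have h1 := card_range_Am T x
    have h2 : Nat.card κ ^ Fintype.card β = Nat.card κ ^ (Fintype.card β - 1) * Nat.card κ := by
      rw [← pow_succ, Nat.sub_add_cancel hβ]
    constructor
    · intro h
      rw [h, h2] at h1
      have h3 := Nat.eq_of_mul_eq_mul_left (pow_pos (by omega) _) h1
      exact Nat.pow_right_injective hq (by simpa using h3)
    · intro h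
      rw [h, pow_one, h2] at h1
      exact Nat.eq_of_mul_eq_mul_right (by omega) h1
  rw [index_centralizer]
  dsimp only
  constructor
  · intro h
    have hw : w = 0 := by
      by_contra hw
      have h1 := range_large₁ T (v := v) hw
      omega
    subst hw
    have hb : ∀ b, v (Sum.inr b) = 0 := by
      intro b
      by_contra hb
      have h1 := range_large₂ T (v := v) (b := b) hb
      omega
    have hv : v = Sum.elim (fun a => v (Sum.inl a)) 0 := by
      funext a
      rcases a with a | b
      · rfl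
      · exact hb b
    rw [hv, card_range_pure, hrk] at h
    exact ⟨rfl, hb, h⟩
  · rintro ⟨rfl, hb, h⟩
    have hv : v = Sum.elim (fun a => v (Sum.inl a)) 0 := by
      funext a
      rcases a with a | b
      · rfl
      · exact hb b
    rw [hv, card_range_pure, hrk]
    exact h

theorem card_elts_big (hβ : 1 ≤ Fintype.card β) :
    Nat.card {g : Grp (big T) κ // (Subgroup.centralizer {g}).index =
      Nat.card κ ^ (Fintype.card β - 1)} =
      Nat.card {x : α → κ // finrank κ (Ker T x) = 1} *
        Nat.card κ ^ (Fintype.card γ + Fintype.card β * Fintype.card β) := by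
  have e : {g : Grp (big T) κ // (Subgroup.centralizer {g}).index =
      Nat.card κ ^ (Fintype.card β - 1)} ≃
      {x : α → κ // finrank κ (Ker T x) = 1} × (γ ⊕ (β × β) → κ) :=
    { toFun := fun g => ⟨⟨fun a => g.1.v (Sum.inl a), ((index_big T hβ _ _ _).mp g.2).2.2⟩, g.1.z⟩
      invFun := fun x => ⟨⟨Sum.elim x.1.1 0, 0, x.2⟩,
        (index_big T hβ _ _ _).mpr ⟨rfl, fun _ => rfl, x.1.2⟩⟩
      left_inv := fun g => by
        obtain ⟨⟨v, w, z⟩, hg⟩ := g
        obtain ⟨rfl, h2, -⟩ := (index_big T hβ _ _ _).mp hg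
        refine Subtype.ext (Grp.ext ?_ rfl rfl)
        funext a
        rcases a with a | b
        · rfl
        · exact (h2 b).symm
      right_inv := fun x => rfl }
  rw [Nat.card_congr e, Nat.card_prod, Nat.card_fun, Nat.card_eq_fintype_card (α := γ ⊕ (β × β)),
    Fintype.card_sum, Fintype.card_prod]

/-- The elements with fewer conjugates are central. -/
theorem small_big (hβ : 1 ≤ Fintype.card β) (h : ∀ x : α → κ, x ≠ 0 → finrank κ (Ker T x) ≤ 1)
    (g : Grp (big T) κ)
    (hg : (Subgroup.centralizer {g}).index < Nat.card κ ^ (Fintype.card β - 1)) :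
    (Subgroup.centralizer {g}).index = 1 := by
  have hq : 1 < Nat.card κ := Finite.one_lt_card
  have hlt : Nat.card κ ^ (Fintype.card β - 1) < Nat.card κ ^ Fintype.card β :=
    Nat.pow_lt_pow_right hq (by omega)
  obtain ⟨v, w, z⟩ := g
  rw [index_centralizer] at hg ⊢
  dsimp only at hg ⊢
  have hw : w = 0 := by
    by_contra hw
    have h1 := range_large₁ T (v := v) hw
    omega
  subst hw
  have hb : ∀ b, v (Sum.inr b) = 0 := by
    intro b
    by_contra hb
    have h1 := range_large₂ T (v := v) (b := b) hb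
    omega
  have hv : v = Sum.elim (fun a => v (Sum.inl a)) 0 := by
    funext a
    rcases a with a | b
    · rfl
    · exact hb b
  rw [hv, card_range_pure] at hg ⊢
  by_cases hx : (fun a => v (Sum.inl a)) = 0
  · rw [hx]
    have h1 : Am T (0 : α → κ) = 0 := by
      apply LinearMap.ext
      intro w
      rw [Am_apply, bil_zero_left]
      rfl
    rw [h1, LinearMap.range_zero]
    exact Nat.card_unique
  · exfalso
    have h1 := card_range_Am T fun a => v (Sum.inl a)
    have h2 := h _ hx
    have h3 : Nat.card κ ^ finrank κ (Ker T fun a => v (Sum.inl a)) ≤ Nat.card κ :=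
      (Nat.pow_le_pow_right (by omega) h2).trans_eq (pow_one _)
    have h4 : Nat.card κ ^ Fintype.card β = Nat.card κ ^ (Fintype.card β - 1) * Nat.card κ := by
      rw [← pow_succ, Nat.sub_add_cancel hβ]
    have h5 : Nat.card (LinearMap.range (Am T fun a => v (Sum.inl a))) * Nat.card κ ^
        finrank κ (Ker T fun a => v (Sum.inl a)) ≤
        Nat.card (LinearMap.range (Am T fun a => v (Sum.inl a))) * Nat.card κ :=
      Nat.mul_le_mul_left _ h3
    rw [h1, h4] at h5
    have h6 := Nat.le_of_mul_le_mul_right h5 (by omega)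
    omega

end Big

section Points

variable {m d : ℕ} {ι : Type} [Fintype ι] {Φ : ι → (Fin d → Fin m) → ℤ} {e : Fin m → Bool}
  {κ : Type} [Field κ]

omit [Fintype ι] in
lemma card_good :
    Nat.card {x : Fin m → κ // Good Φ e x} =
      Nat.card κˣ * Nat.card {P : Projectivization κ (Fin m → κ) // Good Φ e P.rep} := by
  rw [mul_comm, ← Nat.card_prod]
  symm
  let f : {P : Projectivization κ (Fin m → κ) // Good Φ e P.rep} × κˣ →
      {x : Fin m → κ // Good Φ e x} := fun q =>
    ⟨(q.2 : κ) • q.1.1.rep, (good_smul q.2.ne_zero _).mpr q.1.2⟩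
  refine Nat.card_congr (Equiv.ofBijective f ⟨?_, fun x => ?_⟩)
  · rintro ⟨⟨P, hP⟩, c⟩ ⟨⟨P', hP'⟩, c'⟩ h
    have h1 : (c : κ) • P.rep = (c' : κ) • P'.rep := congrArg Subtype.val h
    have h2 : P = P' := by
      rw [← Projectivization.mk_rep P, ← Projectivization.mk_rep P',
        Projectivization.mk_eq_mk_iff']
      exact ⟨(c : κ)⁻¹ * c', by rw [mul_smul, ← h1, smul_smul, inv_mul_cancel₀ c.ne_zero,
        one_smul]⟩
    subst h2
    have h3 : c = c' := by
      apply Units.ext
      have h4 : ((c : κ) - c') • P.rep = 0 := by rw [sub_smul, h1, sub_self]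
      exact sub_eq_zero.mp ((smul_eq_zero.mp h4).resolve_right (Projectivization.rep_nonzero P))
    subst h3
    rfl
  · obtain ⟨x, hx⟩ := x
    have hx0 : x ≠ 0 := by
      rintro rfl
      obtain ⟨⟨i, -, hi⟩, -⟩ := hx
      exact hi rfl
    obtain ⟨c, hc⟩ := Projectivization.exists_smul_eq_mk_rep κ x hx0
    have hc' : (c : κ) • x = (Projectivization.mk κ x hx0).rep := hc
    refine ⟨⟨⟨Projectivization.mk κ x hx0, ?_⟩, c⁻¹⟩, Subtype.ext ?_⟩
    · rw [← hc', good_smul c.ne_zero]
      exact hx
    · change ((c⁻¹ : κˣ) : κ) • (Projectivization.mk κ x hx0).rep = x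
      rw [← hc', smul_smul, Units.inv_mul, one_smul]

omit [Fintype ι] in
lemma ker_le_one (hd : 1 ≤ d) {x : Fin m → κ} {i : Fin m} (hi : e i = true) (hx : x i ≠ 0) :
    finrank κ (Ker (ten Φ e) x) ≤ 1 := by
  have h0 : x ≠ 0 := fun h => hx (congrFun h i)
  have h1 : Ker (ten Φ e) x ≤ Submodule.span κ {(ver x : Col m d → κ)} := by
    intro w hw
    rw [LinearMap.mem_ker, Am_apply, ker_eq hi hx] at hw
    obtain ⟨c, rfl, -⟩ := hw
    exact Submodule.smul_mem _ _ (Submodule.mem_span_singleton_self _)
  exact (Submodule.finrank_mono h1).trans_eq (finrank_span_singleton (ver_ne hd h0))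

end Points

/-- **The numbers of the conjugacy classes of given size.** -/
theorem siz_proj {m : ℕ} (G : Finset (MvPolynomial (Fin m) ℤ))
    (hG : ∀ F ∈ G, ∃ d, F.IsHomogeneous d) :
    ∃ (a b c : ℕ) (T : Fin a → Fin b → Fin c → ℤ) (r t : ℕ), 1 ≤ r ∧
      ∀ (κ : Type) [Field κ] [Finite κ],
      Nat.card (Cent T r κ) = Nat.card (projPoints G κ) ∧
      Nat.card (Siz T r κ) = Nat.card κ ^ t * (Nat.card κ - 1) * Nat.card (projPoints G κ) ∧
      ∀ g : Grp T κ, (Subgroup.centralizer {g}).index < Nat.card κ ^ r →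
        g ∈ Subgroup.center (Grp T κ) := by
  classical
  obtain ⟨d, Φ, hd, hΦ⟩ := exists_forms_proj G hG
  let T₀ := big (ten Φ fun _ => true)
  let r := Fintype.card (Col m d) - 1
  let s := Fintype.card (Row m d (↥G × Fin m)) + Fintype.card (Col m d) * Fintype.card (Col m d)
  let eα := (Fintype.equivFin (Fin m ⊕ Col m d)).symm
  let eβ := (Fintype.equivFin (Col m d)).symm
  let eγ := (Fintype.equivFin (Row m d (↥G × Fin m) ⊕ (Col m d × Col m d))).symm
  have hβ : 1 ≤ Fintype.card (Col m d) := one_le_card m d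
  have hr : r ≤ s := by
    have : Fintype.card (Col m d) ≤ Fintype.card (Col m d) * Fintype.card (Col m d) :=
      Nat.le_mul_of_pos_left _ hβ
    simp only [r, s]
    omega
  have hr1 : 1 ≤ r := by
    simp only [r, Fintype.card_sum, Fintype.card_fin]
    omega
  refine ⟨_, _, _, tr T₀ eα eβ eγ, r, s - r, hr1, fun κ _ _ => ?_⟩
  have hq : 1 < Nat.card κ := Finite.one_lt_card
  have hgood : ∀ P : Projectivization κ (Fin m → κ), Good Φ (fun _ => true) P.rep ↔
      P ∈ projPoints G κ := by
    intro P
    have h0 := Projectivization.rep_nonzero P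
    change Good Φ (fun _ => true) P.rep ↔ ∀ F ∈ G, aeval P.rep F = 0
    rw [← hΦ κ P.rep h0]
    constructor
    · exact fun h => h.2
    · intro h
      obtain ⟨p, hp⟩ := Function.ne_iff.mp h0
      exact ⟨⟨p, rfl, hp⟩, h⟩
  refine ⟨?_, ?_, fun g hg => ?_⟩
  · rw [card_cent_tr, card_cent _ hβ, card_lines hd]
    exact Nat.card_congr (Equiv.subtypeEquivRight hgood)
  · have h1 := card_siz (tr T₀ eα eβ eγ) r κ
    rw [card_elts_tr, card_elts_big _ hβ, Nat.card_congr (Equiv.subtypeEquivRight fun x =>
      good_iff (Φ := Φ) (e := fun _ => true) hd x), card_good,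
      Nat.card_congr (Equiv.subtypeEquivRight hgood), Nat.card_units] at h1
    have h2 : Nat.card κ ^ s = Nat.card κ ^ (s - r) * Nat.card κ ^ r := by
      rw [← pow_add, Nat.sub_add_cancel hr]
    change _ = _ * Nat.card κ ^ s at h1
    rw [h2, ← mul_assoc] at h1
    rw [Nat.eq_of_mul_eq_mul_right (pow_pos (by omega) r) h1]
    change (Nat.card κ - 1) * Nat.card (projPoints G κ) * _ = _
    ring
  · have h1 : ∀ g : Grp T₀ κ, (Subgroup.centralizer {g}).index ≤ Nat.card κ ^ r - 1 →
        (Subgroup.centralizer {g}).index = 1 := by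
      intro g hg
      refine small_big _ hβ (fun x hx => ?_) g ?_
      · obtain ⟨p, hp⟩ := Function.ne_iff.mp hx
        exact ker_le_one hd rfl hp
      · have : 0 < Nat.card κ ^ r := pow_pos (by omega) r
        change _ < Nat.card κ ^ r
        omega
    have h2 := breadth_tr T₀ eα eβ eγ h1 g (by omega)
    rw [Subgroup.index_eq_one] at h2
    rw [Subgroup.mem_center_iff]
    intro h
    have h3 : h ∈ Subgroup.centralizer {g} := by
      rw [h2]
      exact Subgroup.mem_top h
    exact Subgroup.mem_centralizer_singleton_iff.mp h3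

end Pool.Agent.KS6_93.CG
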