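import Mathlib

/-!
# Polynomials as combinations of words
-/

set_option autoImplicit false

namespace Pool.Agent.KS6_93.CG

open Finset MvPolynomial

/-- A word for a monomial, filled up with the letter `i₀`. -/
lemma exists_word {m : ℕ} (i₀ : Fin m) (d : ℕ) : ∀ a : Fin m → ℕ, ∑ i, a i ≤ d →
    ∃ s : Fin d → Fin m, ∀ (κ : Type) [Field κ] (x : Fin m → κ),
      ∏ k, x (s k) = (∏ i, x i ^ a i) * x i₀ ^ (d - ∑ i, a i) := by
  classical
  induction d with
  | zero =>
    intro a ha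
    have h0 : ∀ i, a i = 0 := by
      intro i
      have := Finset.single_le_sum (f := a) (fun _ _ => Nat.zero_le _) (mem_univ i)
      omega
    refine ⟨Fin.elim0, fun κ _ x => ?_⟩
    simp [h0]
  | succ d ih =>
    intro a ha
    by_cases h : ∀ i, a i = 0
    · refine ⟨fun _ => i₀, fun κ _ x => ?_⟩
      simp [h]
    · push Not at h
      obtain ⟨i, hi⟩ := h
      let a' : Fin m → ℕ := Function.update a i (a i - 1)
      have hs : ∑ l, a l = ∑ l, a' l + 1 := by
        rw [← Finset.add_sum_erase _ _ (mem_univ i), ← Finset.add_sum_erase _ a' (mem_univ i)]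
        have h1 : ∑ l ∈ univ.erase i, a' l = ∑ l ∈ univ.erase i, a l :=
          sum_congr rfl fun l hl => Function.update_of_ne (ne_of_mem_erase hl) _ _
        have h2 : a' i = a i - 1 := Function.update_self _ _ _
        rw [h1, h2]
        omega
      obtain ⟨s, hs'⟩ := ih a' (by omega)
      refine ⟨Fin.cons i s, fun κ _ x => ?_⟩
      rw [Fin.prod_univ_succ, Fin.cons_zero]
      simp only [Fin.cons_succ]
      rw [hs' κ x, ← mul_assoc]
      have h3 : x i * ∏ l, x l ^ a' l = ∏ l, x l ^ a l := by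
        rw [← Finset.mul_prod_erase _ _ (mem_univ i), ← Finset.mul_prod_erase _ (fun l => x l ^ a l)
          (mem_univ i)]
        have h1 : ∏ l ∈ univ.erase i, x l ^ a' l = ∏ l ∈ univ.erase i, x l ^ a l :=
          prod_congr rfl fun l hl => by
            rw [show a' l = a l from Function.update_of_ne (ne_of_mem_erase hl) _ _]
        have h2 : a' i = a i - 1 := Function.update_self _ _ _
        rw [h1, h2, ← mul_assoc, ← pow_succ', Nat.sub_add_cancel (by omega)]
      rw [h3, hs]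
      congr 2
      omega

/-- The value of a combination of words. -/
def formVal {m d : ℕ} (Φ : (Fin d → Fin m) → ℤ) {κ : Type} [Field κ] (x : Fin m → κ) : κ :=
  ∑ s, (Φ s : κ) * ∏ k, x (s k)

/-- Polynomials as combinations of words of the length `d`. -/
lemma exists_form {m : ℕ} (F : MvPolynomial (Fin m) ℤ) (i₀ : Fin m) (d : ℕ)
    (hd : F.totalDegree ≤ d) : ∃ Φ : (Fin d → Fin m) → ℤ, ∀ (κ : Type) [Field κ] (x : Fin m → κ),
      formVal Φ x = ∑ a ∈ F.support, ((coeff a F : ℤ) : κ) *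
        ((∏ i, x i ^ a i) * x i₀ ^ (d - ∑ i, a i)) := by
  classical
  have hdeg : ∀ a ∈ F.support, ∑ i, a i ≤ d := by
    intro a ha
    refine le_trans ?_ ((le_totalDegree ha).trans hd)
    rw [Finsupp.sum_fintype _ _ (fun _ => rfl)]
  have hw : ∀ a : Fin m →₀ ℕ, ∃ s : Fin d → Fin m, a ∈ F.support →
      ∀ (κ : Type) [Field κ] (x : Fin m → κ),
        ∏ k, x (s k) = (∏ i, x i ^ a i) * x i₀ ^ (d - ∑ i, a i) := by
    intro a
    by_cases ha : a ∈ F.support
    · obtain ⟨s, hs⟩ := exists_word i₀ d a (hdeg a ha)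
      exact ⟨s, fun _ => hs⟩
    · exact ⟨fun _ => i₀, fun h => absurd h ha⟩
  choose wd hwd using hw
  refine ⟨fun s => ∑ a ∈ F.support, if s = wd a then F.coeff a else 0, fun κ _ x => ?_⟩
  unfold formVal
  push_cast
  simp only [sum_mul]
  rw [sum_comm]
  refine sum_congr rfl fun a ha => ?_
  rw [← hwd a ha κ x]
  simp only [ite_mul, zero_mul]
  rw [Finset.sum_ite_eq' univ (wd a)]
  simp

lemma aeval_sum {m : ℕ} (F : MvPolynomial (Fin m) ℤ) {κ : Type} [Field κ] (x : Fin m → κ) :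
    aeval x F = ∑ a ∈ F.support, ((coeff a F : ℤ) : κ) * ∏ i, x i ^ a i := by
  rw [aeval_def, eval₂_eq']
  rfl

/-- The affine version. -/
lemma exists_form_aff {m : ℕ} (F : MvPolynomial (Fin m) ℤ) (i₀ : Fin m) (d : ℕ)
    (hd : F.totalDegree ≤ d) : ∃ Φ : (Fin d → Fin m) → ℤ, ∀ (κ : Type) [Field κ] (x : Fin m → κ),
      x i₀ = 1 → formVal Φ x = aeval x F := by
  obtain ⟨Φ, hΦ⟩ := exists_form F i₀ d hd
  refine ⟨Φ, fun κ _ x hx => ?_⟩
  rw [hΦ, aeval_sum]
  refine sum_congr rfl fun a _ => ?_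
  rw [hx, one_pow, mul_one]

/-- The homogeneous version. -/
lemma exists_form_hom {m : ℕ} (F : MvPolynomial (Fin m) ℤ) (e : ℕ) (hF : F.IsHomogeneous e)
    (i₀ : Fin m) (d : ℕ) (hd : F.totalDegree ≤ d) :
    ∃ Φ : (Fin d → Fin m) → ℤ, ∀ (κ : Type) [Field κ] (x : Fin m → κ),
      formVal Φ x = x i₀ ^ (d - e) * aeval x F := by
  obtain ⟨Φ, hΦ⟩ := exists_form F i₀ d hd
  refine ⟨Φ, fun κ _ x => ?_⟩
  rw [hΦ, aeval_sum, mul_sum]
  refine sum_congr rfl fun a ha => ?_
  have h1 : ∑ i, a i = e := by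
    have h2 := hF (mem_support_iff.mp ha)
    rw [← h2, Finsupp.weight_apply, Finsupp.sum_fintype _ _ (fun _ => by simp)]
    simp
  rw [h1]
  ring

end Pool.Agent.KS6_93.CG
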