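import Pool.Agent.KS6_93.CG.Grp
import Pool.Agent.KS6_93.CG.Words

/-!
# The matrix of linear forms whose kernels are the Veronese lines
-/

set_option autoImplicit false

namespace Pool.Agent.KS6_93.CG

open Finset Module

/-- the rows -/
abbrev Row (m d : ℕ) (ι : Type) : Type :=
  (Fin m × Fin m × Fin d × (Fin d → Fin m)) ⊕ ((ι × Fin m) ⊕ (Fin 2 × Fin m))

/-- the columns -/
abbrev Col (m d : ℕ) : Type := (Fin d → Fin m) ⊕ Fin 2

variable {m d : ℕ} {ι : Type}

/-- The tensor of the system `x_i w_{s[k := j]} = x_j w_{s[k := i]}`, `x_i Φ(w) = 0`,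
`x_i w_δ = 0` for the `i` with `e i`. -/
def ten (Φ : ι → (Fin d → Fin m) → ℤ) (e : Fin m → Bool) : Fin m → Col m d → Row m d ι → ℤ
  | a, Sum.inl s', Sum.inl (i, j, k, s) =>
      (if a = i then (if s' = Function.update s k j then 1 else 0) else 0) -
        (if a = j then (if s' = Function.update s k i then 1 else 0) else 0)
  | a, Sum.inl s', Sum.inr (Sum.inl (φ, i)) => if a = i then Φ φ s' else 0
  | a, Sum.inr δ', Sum.inr (Sum.inr (δ, i)) =>
      if a = i then (if δ' = δ then (if e i then 1 else 0) else 0) else 0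
  | _, Sum.inr _, Sum.inl _ => 0
  | _, Sum.inr _, Sum.inr (Sum.inl _) => 0
  | _, Sum.inl _, Sum.inr (Sum.inr _) => 0

section

variable (Φ : ι → (Fin d → Fin m) → ℤ) (e : Fin m → Bool) {κ : Type} [Field κ] (x : Fin m → κ)
  (w : Col m d → κ)

lemma bil_rel (i j : Fin m) (k : Fin d) (s : Fin d → Fin m) :
    bil (ten Φ e) x w (Sum.inl (i, j, k, s)) =
      x i * w (Sum.inl (Function.update s k j)) - x j * w (Sum.inl (Function.update s k i)) := by
  unfold bil
  simp only [Fintype.sum_sum_type, ten, Int.cast_zero, zero_mul, sum_const_zero, add_zero]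
  push_cast
  simp only [sub_mul, sum_sub_distrib, ite_mul, zero_mul, one_mul]
  congr 1
  · rw [Finset.sum_comm]
    simp
  · rw [Finset.sum_comm]
    simp

lemma bil_form (φ : ι) (i : Fin m) :
    bil (ten Φ e) x w (Sum.inr (Sum.inl (φ, i))) = x i * ∑ s, (Φ φ s : κ) * w (Sum.inl s) := by
  unfold bil
  simp only [Fintype.sum_sum_type, ten, Int.cast_zero, zero_mul, sum_const_zero, add_zero]
  push_cast
  simp only [ite_mul, zero_mul]
  rw [Finset.sum_comm, mul_sum]
  refine sum_congr rfl fun s _ => ?_
  simp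
  ring

lemma bil_dum (δ : Fin 2) (i : Fin m) :
    bil (ten Φ e) x w (Sum.inr (Sum.inr (δ, i))) = if e i then x i * w (Sum.inr δ) else 0 := by
  unfold bil
  simp only [Fintype.sum_sum_type, ten, Int.cast_zero, zero_mul, sum_const_zero, zero_add]
  push_cast
  simp only [ite_mul, zero_mul, one_mul]
  rw [Finset.sum_comm]
  simp

/-- The system. -/
lemma bil_eq_zero_iff : bil (ten Φ e) x w = 0 ↔
    (∀ i j k s, x i * w (Sum.inl (Function.update s k j)) =
      x j * w (Sum.inl (Function.update s k i))) ∧
    (∀ φ i, x i * ∑ s, (Φ φ s : κ) * w (Sum.inl s) = 0) ∧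
    ∀ δ i, e i = true → x i * w (Sum.inr δ) = 0 := by
  constructor
  · intro h
    refine ⟨fun i j k s => ?_, fun φ i => ?_, fun δ i hi => ?_⟩
    · rw [← sub_eq_zero, ← bil_rel Φ e, h]
      rfl
    · rw [← bil_form Φ e, h]
      rfl
    · have h1 := congrFun h (Sum.inr (Sum.inr (δ, i)))
      rw [bil_dum, if_pos hi] at h1
      exact h1
  · rintro ⟨h1, h2, h3⟩
    funext r
    rcases r with ⟨i, j, k, s⟩ | ⟨φ, i⟩ | ⟨δ, i⟩
    · rw [bil_rel, h1, sub_self]
      rfl
    · rw [bil_form, h2]
      rfl
    · rw [bil_dum]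
      split_ifs with h
      · exact h3 δ i h
      · rfl

/-- The Veronese vector. -/
def ver (x : Fin m → κ) : Col m d → κ
  | Sum.inl s => ∏ k, x (s k)
  | Sum.inr _ => 0

lemma ver_update (s : Fin d → Fin m) (k : Fin d) (i : Fin m) :
    ver x (Sum.inl (Function.update s k i)) = x i * ∏ l ∈ univ.erase k, x (s l) := by
  change ∏ l, x (Function.update s k i l) = _
  rw [← Finset.mul_prod_erase _ _ (mem_univ k), Function.update_self]
  congr 1
  exact prod_congr rfl fun l hl => by rw [Function.update_of_ne (ne_of_mem_erase hl)]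

lemma ver_sum (φ : ι) : ∑ s, (Φ φ s : κ) * ver x (Sum.inl s) = formVal (Φ φ) x := rfl

lemma ver_ne (hd : 1 ≤ d) {x : Fin m → κ} (hx : x ≠ 0) : (ver x : Col m d → κ) ≠ 0 := by
  obtain ⟨p, hp⟩ := Function.ne_iff.mp hx
  intro h
  have h1 := congrFun h (Sum.inl fun _ => p)
  change ∏ _k : Fin d, x p = 0 at h1
  rw [prod_const, card_univ, Fintype.card_fin] at h1
  exact hp (pow_eq_zero_iff (by omega) |>.mp h1)

/-- Replacing the letters. -/
lemma replace {p : Fin m} (h : ∀ i j k s, x i * w (Sum.inl (Function.update s k j)) =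
      x j * w (Sum.inl (Function.update s k i))) (s : Fin d → Fin m) (K : Finset (Fin d)) :
    x p ^ K.card * w (Sum.inl s) =
      (∏ k ∈ K, x (s k)) * w (Sum.inl fun k => if k ∈ K then p else s k) := by
  classical
  induction K using Finset.induction_on with
  | empty => simp
  | insert k K hk ih =>
    rw [card_insert_of_notMem hk, pow_succ', mul_assoc, ih, prod_insert hk]
    let t : Fin d → Fin m := fun l => if l ∈ K then p else s l
    have e1 : (fun l => if l ∈ insert k K then p else s l) = Function.update t k p := by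
      funext l
      by_cases hl : l = k
      · subst hl
        rw [Function.update_self, if_pos (mem_insert_self _ _)]
      · rw [Function.update_of_ne hl]
        simp only [mem_insert, hl, false_or, t]
    have e2 : t = Function.update t k (s k) := by
      funext l
      by_cases hl : l = k
      · subst hl
        rw [Function.update_self]
        simp only [t, if_neg hk]
      · rw [Function.update_of_ne hl]
    rw [e1]
    have h1 := h p (s k) k t
    rw [← e2] at h1
    change x p * ((∏ k ∈ K, x (s k)) * w (Sum.inl t)) = _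
    linear_combination (∏ k ∈ K, x (s k)) * h1

/-- **The kernel.** -/
theorem ker_eq {Φ : ι → (Fin d → Fin m) → ℤ} {e : Fin m → Bool} {x : Fin m → κ} {i₁ : Fin m}
    (he : e i₁ = true) (hx : x i₁ ≠ 0) (w : Col m d → κ) :
    bil (ten Φ e) x w = 0 ↔
      ∃ c : κ, w = c • ver x ∧ (c = 0 ∨ ∀ φ, formVal (Φ φ) x = 0) := by
  rw [bil_eq_zero_iff]
  constructor
  · rintro ⟨h1, h2, h3⟩
    have hw : ∀ s, w (Sum.inl s) = (w (Sum.inl fun _ => i₁) / x i₁ ^ d) * ∏ k, x (s k) := by
      intro s
      have h4 := replace x w h1 s univ (p := i₁)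
      rw [card_univ, Fintype.card_fin] at h4
      simp only [mem_univ, if_true] at h4
      have h5 : x i₁ ^ d ≠ 0 := pow_ne_zero _ hx
      field_simp
      linear_combination h4
    refine ⟨w (Sum.inl fun _ => i₁) / x i₁ ^ d, ?_, ?_⟩
    · funext l
      rcases l with s | δ
      · exact hw s
      · have h4 := h3 δ i₁ he
        rcases mul_eq_zero.mp h4 with h5 | h5
        · exact absurd h5 hx
        · rw [h5, Pi.smul_apply]
          exact (smul_zero _).symm
    · by_cases hc : w (Sum.inl fun _ => i₁) / x i₁ ^ d = 0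
      · exact Or.inl hc
      · right
        intro φ
        have h4 := h2 φ i₁
        rcases mul_eq_zero.mp h4 with h5 | h5
        · exact absurd h5 hx
        · have h6 : ∑ s, (Φ φ s : κ) * w (Sum.inl s) =
              (w (Sum.inl fun _ => i₁) / x i₁ ^ d) * formVal (Φ φ) x := by
            unfold formVal
            rw [mul_sum]
            refine sum_congr rfl fun s _ => ?_
            rw [hw s]
            ring
          rw [h6] at h5
          exact (mul_eq_zero.mp h5).resolve_left hc
  · rintro ⟨c, rfl, hc⟩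
    refine ⟨fun i j k s => ?_, fun φ i => ?_, fun δ i _ => ?_⟩
    · rw [Pi.smul_apply, Pi.smul_apply, ver_update, ver_update, smul_eq_mul, smul_eq_mul]
      ring
    · have h6 : ∑ s, (Φ φ s : κ) * (c • (ver x : Col m d → κ)) (Sum.inl s) =
          c * formVal (Φ φ) x := by
        unfold formVal
        rw [mul_sum]
        refine sum_congr rfl fun s _ => ?_
        rw [Pi.smul_apply, smul_eq_mul]
        change (Φ φ s : κ) * (c * ∏ k, x (s k)) = _
        ring
      rw [h6]
      rcases hc with hc | hc
      · rw [hc, zero_mul, mul_zero]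
      · rw [hc φ, mul_zero, mul_zero]
    · rw [Pi.smul_apply]
      change x i * (c • (0 : κ)) = 0
      rw [smul_zero, mul_zero]

/-- The vectors on the dummies, if all `x_i` with `e i` vanish. -/
lemma ker_dum {Φ : ι → (Fin d → Fin m) → ℤ} {e : Fin m → Bool} {x : Fin m → κ}
    (hx : ∀ i, e i = true → x i = 0) (u : Fin 2 → κ) :
    bil (ten Φ e) x (Sum.elim 0 u) = 0 := by
  rw [bil_eq_zero_iff]
  refine ⟨fun i j k s => ?_, fun φ i => ?_, fun δ i hi => ?_⟩
  · simp
  · simp
  · rw [hx i hi, zero_mul]

end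

section Line

variable {Φ : ι → (Fin d → Fin m) → ℤ} {e : Fin m → Bool} {κ : Type} [Field κ]

/-- The kernel of `w ↦ T(x, w)`. -/
abbrev Ker {α β γ : Type} [Fintype α] [Fintype β] (T : α → β → γ → ℤ) (x : α → κ) :
    Submodule κ (β → κ) := LinearMap.ker (Am T x)

/-- The condition for the kernel to be a line. -/
def Good (Φ : ι → (Fin d → Fin m) → ℤ) (e : Fin m → Bool) (x : Fin m → κ) : Prop :=
  (∃ i, e i = true ∧ x i ≠ 0) ∧ ∀ φ, formVal (Φ φ) x = 0

theorem ker_good {x : Fin m → κ} (h : Good Φ e x) :
    Ker (ten Φ e) x = Submodule.span κ {ver x} := by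
  obtain ⟨⟨i, hi, hx⟩, h2⟩ := h
  ext w
  rw [LinearMap.mem_ker, Am_apply, ker_eq hi hx, Submodule.mem_span_singleton]
  constructor
  · rintro ⟨c, rfl, -⟩
    exact ⟨c, rfl⟩
  · rintro ⟨c, rfl⟩
    exact ⟨c, rfl, Or.inr h2⟩

theorem good_iff (hd : 1 ≤ d) (x : Fin m → κ) :
    finrank κ (Ker (ten Φ e) x) = 1 ↔ Good Φ e x := by
  constructor
  · intro h
    by_cases h1 : ∃ i, e i = true ∧ x i ≠ 0
    · refine ⟨h1, ?_⟩
      obtain ⟨i, hi, hx⟩ := h1
      by_contra h2
      have h3 : Ker (ten Φ e) x = ⊥ := by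
        rw [eq_bot_iff]
        intro w hw
        rw [LinearMap.mem_ker, Am_apply, ker_eq hi hx] at hw
        obtain ⟨c, rfl, hc⟩ := hw
        rcases hc with hc | hc
        · rw [hc, zero_smul]
          exact Submodule.zero_mem _
        · exact absurd hc h2
      rw [h3, finrank_bot] at h
      exact zero_ne_one h
    · exfalso
      push Not at h1
      let f : (Fin 2 → κ) →ₗ[κ] Ker (ten Φ e) x :=
        { toFun := fun u => ⟨Sum.elim 0 u, by
            rw [LinearMap.mem_ker, Am_apply]
            exact ker_dum h1 u⟩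
          map_add' := fun u u' => by
            apply Subtype.ext
            funext l
            rcases l with s | δ
            · exact (add_zero (0 : κ)).symm
            · rfl
          map_smul' := fun c u => by
            apply Subtype.ext
            funext l
            rcases l with s | δ
            · exact (smul_zero c).symm
            · rfl }
      have hf : Function.Injective f := by
        intro u u' h2
        funext δ
        exact congrFun (congrArg Subtype.val h2) (Sum.inr δ)
      have h3 := LinearMap.finrank_le_finrank_of_injective hf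
      rw [finrank_fin_fun, h] at h3
      omega
  · intro h
    rw [ker_good h]
    obtain ⟨⟨i, hi, hx⟩, -⟩ := h
    exact finrank_span_singleton (ver_ne hd (fun h0 => hx (congrFun h0 i)))

/-- The line determines the point. -/
theorem ver_inj (hd : 1 ≤ d) {x y : Fin m → κ} (hx : x ≠ 0) {c : κ}
    (h : (ver y : Col m d → κ) = c • ver x) : ∃ μ : κ, y = μ • x := by
  by_cases hy : y = 0
  · exact ⟨0, by rw [hy, zero_smul]⟩
  obtain ⟨p, hp⟩ := Function.ne_iff.mp hy
  have hp' : y p ≠ 0 := hp
  obtain ⟨d, rfl⟩ : ∃ d', d = d' + 1 := ⟨d - 1, by omega⟩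
  have h1 : ∀ j, y j * y p ^ d = c * (x j * x p ^ d) := by
    intro j
    have h2 := congrFun h (Sum.inl (Fin.cons j fun _ => p))
    rw [Pi.smul_apply, smul_eq_mul] at h2
    change ∏ k, y ((Fin.cons j fun _ => p : Fin (d + 1) → Fin m) k) =
      c * ∏ k, x ((Fin.cons j fun _ => p : Fin (d + 1) → Fin m) k) at h2
    rw [Fin.prod_univ_succ, Fin.prod_univ_succ] at h2
    simpa using h2
  refine ⟨c * x p ^ d / y p ^ d, ?_⟩
  funext j
  have h3 : y p ^ d ≠ 0 := pow_ne_zero _ hp'
  rw [Pi.smul_apply, smul_eq_mul]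
  field_simp
  linear_combination h1 j

end Line

end Pool.Agent.KS6_93.CG
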